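import Pool.Agent.Lib.EXH.Blue
import Pool.Agent.Lib.KP.B_PSI1
import Pool.Agent.Lib.KP.B_NHS

/-! Project ex41, part HY: the regularized weights of a divisor. -/

open scoped Classical Topology ContDiff ComplexOrder Matrix ENNReal
open Set MeasureTheory Complex Metric Filter

noncomputable section

namespace Pool.Agent.Lib.EXH

open Pool.Agent.Lib.SV (E)
open Pool.Agent.Lib.HS32 Pool.Agent.Lib.KP

namespace APX

theorem hs_sum {n : ℕ} {M : Mf n} {ι : Type} (s : Finset ι) (a : ι → ℝ) (g : ι → M.X → ℝ)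
    (hg : ∀ i, M.Sm (g i)) : M.All fun e z =>
      M.hs (fun x => ∑ i ∈ s, a i * g i x) e z = ∑ i ∈ s, a i • M.hs (g i) e z := by
  intro e he z hz
  induction s using Finset.induction_on with
  | empty =>
    simp only [Finset.sum_empty]
    exact ((mLAP n M _ _ (Mf.sm_const (0 : ℝ)) (Mf.sm_const (0 : ℝ))).1 0 e he z hz).1
  | insert i s hi ih =>
    simp only [Finset.sum_insert hi]
    rw [((mLAP n M _ _ ((hg i).const_mul (a i))
      (Mf.Sm.sum fun b _ => (hg b).const_mul (a b))).1 0 e he z hz).2.1, ih,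
      ((mLAP n M _ _ (hg i) (hg i)).1 (a i) e he z hz).2.2.2.1]

theorem dz_log {n : ℕ} {ι : Type} [Fintype ι] (a : ι → ℝ) (g : ι → E n → ℝ) (δ : ℝ) (z : E n)
    (k : Fin n) (hg : ∀ i, DifferentiableAt ℝ (g i) z) (h0 : ∀ i, g i z + δ ≠ 0) :
    dz k (fun w => ((∑ i, a i * Real.log (g i w + δ) : ℝ) : ℂ)) z =
      ∑ i, ((a i * (g i z + δ)⁻¹ : ℝ) : ℂ) * dz k (fun w => (g i w : ℂ)) z := by
  have hd : ∀ i, HasDerivAt (fun s => a i * Real.log (s + δ)) (a i * (g i z + δ)⁻¹) (g i z) :=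
    fun i => by
      simpa using (((hasDerivAt_id (g i z)).add_const δ).log (h0 i)).const_mul (a i)
  simp only [Complex.ofReal_sum]
  rw [dz_sum fun i _ => ?_]
  · exact Finset.sum_congr rfl fun i _ => dz_comp_real (hd i) (hg i)
  · exact ofRealCLM.differentiableAt.comp z ((hd i).differentiableAt.comp z (hg i))

theorem gap {ι : Type} [Fintype ι] (a N : ι → ℝ) (δ : ℝ) (hδ : 0 < δ) (ha : ∀ i, 0 ≤ a i ∧ a i ≤ 1)
    (hN : ∀ i, 0 ≤ N i) (i : ι) : a i * (δ / (N i + δ)) ≤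
      2 * (1 - Real.exp (∑ l, a l * Real.log (N l + δ) - ∑ l, a l * Real.log (N l + 2 * δ))) := by
  have p1 : ∀ l, 0 < N l + δ := fun l => by linarith [hN l]
  have p2 : ∀ l, 0 < N l + 2 * δ := fun l => by linarith [hN l]
  have h1 : ∑ l, a l * Real.log (N l + δ) - ∑ l, a l * Real.log (N l + 2 * δ) ≤
      Real.log (1 + -(δ / (N i + 2 * δ))) * a i := by
    rw [← Finset.sum_sub_distrib, ← Finset.add_sum_erase _ _ (Finset.mem_univ i),
      show 1 + -(δ / (N i + 2 * δ)) = (N i + δ) / (N i + 2 * δ) by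
        rw [eq_div_iff (p2 i).ne', add_mul, neg_mul, div_mul_cancel₀ _ (p2 i).ne']
        ring, Real.log_div (p1 i).ne' (p2 i).ne']
    have : ∑ l ∈ Finset.univ.erase i,
        (a l * Real.log (N l + δ) - a l * Real.log (N l + 2 * δ)) ≤ 0 :=
      Finset.sum_nonpos fun l _ => sub_nonpos.2 (mul_le_mul_of_nonneg_left
        (Real.log_le_log (p1 l) (by linarith)) (ha l).1)
    linarith
  have q1 : δ / (N i + 2 * δ) < 1 := (div_lt_one (p2 i)).2 (by linarith [hN i])
  have h2 := Real.exp_le_exp.2 h1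
  rw [← Real.rpow_def_of_pos (by linarith)] at h2
  have h3 := rpow_one_add_le_one_add_mul_self (s := -(δ / (N i + 2 * δ))) (by linarith)
    (ha i).1 (ha i).2
  have h4 : δ / (N i + δ) ≤ 2 * (δ / (N i + 2 * δ)) := by
    rw [← mul_div_assoc, div_le_div_iff₀ (p1 i) (p2 i)]
    nlinarith [hN i]
  nlinarith [mul_le_mul_of_nonneg_left h4 (ha i).1]

end APX

theorem st_APX : St_APX := by
  intro n M _ H ι _ Ls f ψ a D hH hf hi
  have sN : ∀ i, M.Sm (M.nrC (ψ i) (f i)) := fun i => (hf i).2.1.nr_sm (hf i).1.toSecC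
  have N0 : ∀ i x, 0 ≤ M.nrC (ψ i) (f i) x := fun i => Mf.nrC_nonneg _ _
  choose C p1 q1 using fun i => st_PSI1 st_NHS n M H (Ls i) (f i) (ψ i) hH (hf i).1 (hf i).2.1
  have ha : ∀ i, 0 ≤ a i ∧ a i ≤ 1 := fun i => (hf i).2.2
  generalize hN : (fun i => M.nrC (ψ i) (f i)) = N
  have eN : ∀ i, M.nrC (ψ i) (f i) = N i := fun i => congrFun hN i
  simp only [eN] at sN N0 q1 hi ⊢
  have d0 : ∀ j : ℕ, (0 : ℝ) < (1 / 2) ^ j := fun j => by positivity
  have d1 : ∀ j : ℕ, ((1 : ℝ) / 2) ^ j ≤ 1 := fun j => pow_le_one₀ (by norm_num) (by norm_num)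
  have d2 : ∀ j : ℕ, ((1 : ℝ) / 2) ^ j = 2 * (1 / 2) ^ (j + 1) := fun j => by ring
  have y0 : ∀ (j : ℕ) i x, 0 < N i x + (1 / 2) ^ j := fun j i x => by linarith [N0 i x, d0 j]
  have sl : ∀ (j : ℕ) i, M.Sm fun x => Real.log (N i x + (1 / 2) ^ j) := fun j i =>
    ((sN i).add (Mf.sm_const _)).log fun x => (y0 j i x).ne'
  have c0 : 0 ≤ ∑ i, C i := Finset.sum_nonneg fun i _ => (p1 i).le
  refine ⟨fun j x => ∑ i, a i * Real.log (N i x + (1 / 2) ^ j), 2 * ∑ i, C i + |D|,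
    by positivity, fun j => Mf.Sm.sum fun i _ => (sl j i).const_mul (a i), fun j x => ?_,
    fun j => ?_, fun j e he z hz => ?_, ?_, fun e he z hz h => ?_, fun e he k => ?_⟩
  · exact Finset.sum_le_sum fun i _ => mul_le_mul_of_nonneg_left
      (Real.log_le_log (y0 _ i x) (by linarith [d2 j, d0 (j + 1)])) (ha i).1
  · have := hi _ ⟨d0 j, d1 j⟩
    have e1 : ∀ x, Real.exp (-∑ i, a i * Real.log (N i x + (1 / 2) ^ j)) =
        ∏ i, (N i x + (1 / 2) ^ j) ^ (-a i) := fun x => by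
      rw [← Finset.sum_neg_distrib, Real.exp_sum]
      refine Finset.prod_congr rfl fun i _ => ?_
      rw [Real.rpow_def_of_pos (y0 j i x)]; congr 1; ring
    simp only [e1]
    linarith [le_abs_self D]
  · beta_reduce
    rw [APX.hs_sum _ a _ (sl (j + 1)) e he z hz]
    have g := APX.gap a (fun i => N i (e.symm z)) _ (d0 (j + 1)) ha fun i => N0 i _
    rw [← d2 j] at g
    set τ := 1 - Real.exp (∑ l, a l * Real.log (N l (e.symm z) + (1 / 2) ^ (j + 1)) -
      ∑ l, a l * Real.log (N l (e.symm z) + (1 / 2) ^ j)) with hτ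
    have τ0 : 0 ≤ τ := by
      rw [hτ, sub_nonneg, Real.exp_le_one_iff, sub_nonpos]
      exact Finset.sum_le_sum fun i _ => mul_le_mul_of_nonneg_left
        (Real.log_le_log (y0 _ i _) (by linarith [d2 j, d0 (j + 1)])) (ha i).1
    have k : ∑ i, a i * (C i * ((1 / 2) ^ (j + 1) / (N i (e.symm z) + (1 / 2) ^ (j + 1)))) ≤
        (2 * ∑ i, C i + |D|) * τ := by
      calc _ ≤ ∑ i, C i * (2 * τ) := Finset.sum_le_sum fun i _ => by
            rw [mul_left_comm]; exact mul_le_mul_of_nonneg_left (g i) (p1 i).le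
        _ ≤ _ := by rw [← Finset.sum_mul]; nlinarith [mul_nonneg (abs_nonneg D) τ0]
    have s1 := Matrix.posSemidef_sum Finset.univ
      (fun i _ => (q1 i _ (d0 (j + 1)) e he z hz).smul (ha i).1)
    have s2 := s1.add ((hH.pos e he z hz).posSemidef.smul (sub_nonneg.2 k))
    convert s2 using 1
    simp only [smul_add, Finset.sum_add_distrib, smul_smul, ← Finset.sum_smul, sub_smul]
    abel
  · rw [ofPred_forall]
    exact isOpen_iInter_of_finite fun i => isOpen_ne_fun (sN i).continuous continuous_const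
  · exact ContDiffAt.sum fun i _ => contDiffAt_const.mul ((sN i e he z hz).log (h i))
  · refine ⟨fun z => ∑ i, ‖dz k (M.lc (N i) e) z‖ / N i (e.symm z) ^ 2,
      fun z hz h => ⟨?_, fun j => ?_⟩⟩
    · refine tendsto_finsetSum _ fun i _ => ContinuousAt.div
        (cd_dz ((sN i).lc e he z hz) k).continuousAt.norm
        ((sN i e he z hz).continuousAt.pow 2) (pow_ne_zero 2 (h i))
    · have dN : ∀ i, DifferentiableAt ℝ (fun w => N i (e.symm w)) z := fun i =>
        cd_diff (sN i e he z hz)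
      have pN : ∀ i, 0 < N i (e.symm z) := fun i => (N0 i _).lt_of_ne' (h i)
      have e1 := APX.dz_log a (fun i w => N i (e.symm w)) ((1 / 2) ^ j) z k dN
        fun i => (y0 j i _).ne'
      have e2 := APX.dz_log a (fun i w => N i (e.symm w)) 0 z k dN
        fun i => by simpa using h i
      simp only [add_zero] at e2
      change ‖dz k (fun w => ((∑ i, a i * Real.log (N i (e.symm w) + (1 / 2) ^ j) : ℝ) : ℂ)) z -
        dz k (fun w => ((∑ i, a i * Real.log (N i (e.symm w)) : ℝ) : ℂ)) z‖ ≤ _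
      rw [e1, e2, ← Finset.sum_sub_distrib, Finset.mul_sum]
      refine (norm_sum_le _ _).trans (Finset.sum_le_sum fun i _ => ?_)
      rw [← sub_mul, norm_mul, ← Complex.ofReal_sub, Complex.norm_real, Real.norm_eq_abs,
        div_eq_inv_mul ‖_‖, ← mul_assoc]
      refine mul_le_mul_of_nonneg_right ?_ (norm_nonneg _)
      have e3 : a i * (N i (e.symm z) + (1 / 2) ^ j)⁻¹ - a i * (N i (e.symm z))⁻¹ =
          -(a i * ((1 / 2) ^ j * ((N i (e.symm z) + (1 / 2) ^ j) * N i (e.symm z))⁻¹)) := by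
        have := (y0 j i (e.symm z)).ne'
        have := (pN i).ne'
        field_simp; ring
      have e4 : ((N i (e.symm z) + (1 / 2) ^ j) * N i (e.symm z))⁻¹ ≤ (N i (e.symm z) ^ 2)⁻¹ :=
        inv_anti₀ (pow_pos (pN i) 2) (by nlinarith [mul_pos (d0 j) (pN i)])
      have e5 : 0 ≤ (1 / 2 : ℝ) ^ j * ((N i (e.symm z) + (1 / 2) ^ j) * N i (e.symm z))⁻¹ :=
        (mul_pos (d0 j) (inv_pos.2 (mul_pos (y0 j i _) (pN i)))).le
      rw [e3, abs_neg, abs_of_nonneg (mul_nonneg (ha i).1 e5)]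
      exact (mul_le_of_le_one_left e5 (ha i).2).trans (mul_le_mul_of_nonneg_left e4 (d0 j).le)

end Pool.Agent.Lib.EXH
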