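import Pool.Agent.Lib.EXH.B_ALG

/-! Project ex41, part HY: the weighted divergence and the identity of Bochner. -/

open scoped Classical Topology ContDiff ComplexOrder Matrix ENNReal
open Set MeasureTheory Complex Metric Filter

noncomputable section

namespace Pool.Agent.Lib.EXH

open Pool.Agent.Lib.SV (E)
open Pool.Agent.Lib.HS32 Pool.Agent.Lib.KP Pool.Agent.Lib.KP.T60
open Pool.Agent.Lib.HS68 (dual wdv met_loc)
open Pool.Agent.Lib.HS.SIUK (dzb_hol)

variable {n : ℕ} {M : Mf n} {H : M.Fam (Mat n)} {L : M.Co} {φ : M.Fam ℝ} {W : M.Fam (E n)}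
  {s : M.Fam ℂ}

theorem fld_eq (V : E n) (a b : ℂ) : (fun k => V k * a * b) = (a * b) • V := by
  funext k
  rw [Pi.smul_apply, smul_eq_mul]
  ring

theorem VeC.wd_sec (h : VeC M L W) (hH : M.Met H) (hφ : M.WtC L φ) : M.SecC L (wd M H φ W) := by
  refine ⟨fun e he z hz => HS68.smooth_wdv (phC_sm hH hφ he hz) (h.sm e he z hz),
    fun e he e' he' x hx hx' => ?_⟩
  obtain ⟨hN, hJ, -, hev, -⟩ := (mTR n M).2.1 e he e' he' x hx hx'
  have hψ : (e ∘ e'.symm) (e' x) = e x := by simp [e'.left_inv hx']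
  have z1 := e.map_source hx
  have z2 := e'.map_source hx'
  have a1 := HS68.adj_div (phC_sm hH hφ he z1) (h.sm e he _ z1) (g := fun _ => 1) contDiffAt_const
  have a2 := HS68.adj_div (phC_sm hH hφ he' z2) (h.sm e' he' _ z2) (L.sm e he e' he' x hx hx')
  have a3 := BDIV.dv_pb mCHN mCOF
    (W := fun w k => W e w k * star (1 : ℂ) * (Real.exp (-phC M H φ e w) : ℝ))
    (W' := fun w k => W e' w k * star (L.c e e' (e'.symm w)) * (Real.exp (-phC M H φ e' w) : ℝ))
    hN hJ (hψ ▸ contDiffAt_pi.2 fun k => ((h.smk k e he _ z1).mul contDiffAt_const).mul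
      (cd_ofReal (phC_sm hH hφ he z1).neg.exp)) (by
    filter_upwards [hev] with y hy
    have b1 := h.cmp e he e' he' _ hy.2.1 hy.2.2.1
    have b2 := expC_cmp hH hφ he he' hy.2.1 hy.2.2.1
    beta_reduce at b1
    rw [hy.2.2.2.2.2.1, hy.2.2.2.2.2.2] at b1 b2
    rw [fld_eq, fld_eq, Matrix.mulVec_smul, b1, smul_smul, smul_smul, star_one, one_mul]
    exact congrArg (· • _) (by rw [Function.comp_apply, ← b2]; ring))
  rw [hψ, a1, a2] at a3
  simp only [dzb_hol (L.hol e he e' he' x hx hx').self_of_nhds, dzb_const, star_zero, mul_zero,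
    Finset.sum_const_zero, add_zero, star_one, mul_one, e'.left_inv hx'] at a3
  have b2 := expC_cmp hH hφ he he' hx hx'
  have p1 : star (L.c e e' x) ≠ 0 := star_ne_zero.2 (L.ne e he e' he' x hx hx')
  have p2 : ((Real.exp (-phC M H φ e' (e' x)) : ℝ) : ℂ) ≠ 0 :=
    ofReal_ne_zero.2 (Real.exp_pos _).ne'
  refine mul_right_cancel₀ (mul_ne_zero p1 p2) ?_
  change wdv _ _ _ * _ = wdv _ _ _ * _ * _
  rw [Mf.J] at b2
  linear_combination a3 - wdv (phC M H φ e) (W e) (e x) * b2

theorem VeC.vden (h : VeC M L W) (hH : M.Met H) (hφ : M.WtC L φ) (hs : M.SecC L s) :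
    M.VDen fun e w k => W e w k * star (s e w) * (Real.exp (-phC M H φ e w) : ℝ) := by
  refine ⟨fun e he z hz => contDiffAt_pi.2 fun k => ((h.smk k e he z hz).mul
    (cd_star (hs.sm e he z hz))).mul (cd_ofReal (phC_sm hH hφ he hz).neg.exp),
    fun e he e' he' x hx hx' => ?_⟩
  beta_reduce
  rw [fld_eq, fld_eq, Matrix.mulVec_smul, h.cmp e he e' he' x hx hx', hs.cmp e he e' he' x hx hx',
    smul_smul, smul_smul, star_mul']
  congr 1
  linear_combination star (s e (e x)) * expC_cmp hH hφ he he' hx hx'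

theorem st_WDV : St_WDV := by
  intro n M hM H L φ W hH hφ h
  refine ⟨h.wd_sec hH hφ, fun s hs => ?_⟩
  have hi := (mMU n M H hH).2.2.2.2.1 ℂ
  rw [eq_neg_iff_add_eq_zero, ← integral_add
    (hi _ (st_SC5 n M H L φ _ _ hH hφ (h.wd_sec hH hφ) hs).2.2.2.2.2.1)
    (hi _ (h.form (vec_du hH hs) hφ hH.toTen).2), ← ((mDIV n M H hH).2.1 _ (h.vden hH hφ hs)).2.2 hM]
  refine integral_congr_ae (Eventually.of_forall fun x => ?_)
  have he := Mf.ch_mem x
  have hz := Mf.ch_tgt x
  have e1 : star (M.ev (du M H s) x) ⬝ᵥ M.ev H x *ᵥ M.ev W x =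
      ∑ k, W (M.ch x) (M.ch x x) k * star (dzb k (s (M.ch x)) (M.ch x x)) := by
    rw [Matrix.dotProduct_mulVec, ← (hH.ev_pos x).1.eq, ← Matrix.star_mulVec, dotProduct_comm]
    exact Finset.sum_congr rfl fun k _ => congrArg (_ * star ·) (mul_du hH s _ he _ hz k)
  simp only [spC, vp]
  rw [e1]
  simp only [Mf.ev]
  rw [HS68.adj_div (phC_sm hH hφ he hz) (h.sm _ he _ hz) (hs.sm _ he _ hz), exp_phC hH he hz,
    ofReal_mul, Mf.herm_det (hH.herm _ he _ hz), ← mul_assoc,
    mul_div_cancel_right₀ _ (hH.det_ne _ he _ hz), add_mul]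
  rfl

theorem VeC.vden2 (h : VeC M L W) (hH : M.Met H) (hφ : M.WtC L φ) : M.VDen fun e z k =>
    (∑ l, dzb l (fun x => W e x k) z * star (W e z l)) * (Real.exp (-phC M H φ e z) : ℝ) := by
  refine ⟨fun e he z hz => contDiffAt_pi.2 fun k => (ContDiffAt.sum fun l _ =>
    (cd_dzb (h.smk k e he z hz) l).mul (cd_star (h.smk l e he z hz))).mul
      (cd_ofReal (phC_sm hH hφ he hz).neg.exp), fun e he e' he' x hx hx' => ?_⟩
  have h2 := expC_cmp hH hφ he he' hx hx'
  have h3 := h.cmp e he e' he' x hx hx'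
  have h4 := h.dd e he e' he' x hx hx'
  funext k
  have h5 : ∀ b, ∑ l, star (M.J e e' x b l) * star (W e' (e' x) l) =
      star (L.c e e' x) * star (W e (e x) b) := fun b => by
    have := congrArg star (congrFun h3 b)
    simpa only [Matrix.mulVec, dotProduct, star_sum, star_mul', Pi.smul_apply, smul_eq_mul]
      using this
  have h6 : ∑ a, M.J e e' x k a * ∑ l, dzb l (fun y => W e' y a) (e' x) * star (W e' (e' x) l) =
      L.c e e' x * star (L.c e e' x) *
        ∑ b, dzb b (fun y => W e y k) (e x) * star (W e (e x) b) := by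
    calc _ = ∑ l, (∑ a, M.J e e' x k a * dzb l (fun y => W e' y a) (e' x)) *
          star (W e' (e' x) l) := by
          simp only [Finset.mul_sum, Finset.sum_mul, mul_assoc]
          exact Finset.sum_comm
      _ = L.c e e' x * ∑ b, dzb b (fun y => W e y k) (e x) *
          ∑ l, star (M.J e e' x b l) * star (W e' (e' x) l) := by
          simp only [h4 k]
          simp only [Finset.mul_sum, Finset.sum_mul, mul_assoc]
          exact Finset.sum_comm
      _ = _ := by
          simp only [h5]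
          rw [mul_assoc]
          congr 1
          rw [Finset.mul_sum]
          exact Finset.sum_congr rfl fun b _ => mul_left_comm _ _ _
  simp only [Matrix.mulVec, dotProduct, Pi.smul_apply, smul_eq_mul, ← mul_assoc]
  rw [← Finset.sum_mul, h6]
  linear_combination (∑ b, dzb b (fun y => W e y k) (e x) * star (W e (e x) b)) * h2

theorem st_BOC : St_BOC := by
  intro n M hM H L φ W hH hφ h
  have hi := (mMU n M H hH).2.2.2.2.1
  have hs := h.wd_sec hH hφ
  obtain ⟨-, a1, a2⟩ := (mDIV n M H hH).2.2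
    (fun e w l => wd M H φ W e w * star (W e w l) * (Real.exp (-phC M H φ e w) : ℝ)) (by
      have := h.vden hH hφ hs
      refine (congrArg M.VDen (funext fun e => funext fun w => funext fun l => ?_)).mp this
      simp only [Pi.star_apply, star_mul', star_star]
      rw [show star ((Real.exp (-phC M H φ e w) : ℝ) : ℂ) = _ from conj_ofReal _]
      ring)
  obtain ⟨-, b1, b2⟩ := (mDIV n M H hH).2.1 _ (h.vden2 hH hφ)
  have i1 := hi ℂ _ a1.continuous
  have i2 := hi ℂ _ b1.continuous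
  have h1 := integral_re (i1.sub i2)
  rw [integral_sub' i1 i2, a2 hM, b2 hM, sub_zero, map_zero] at h1
  have hT : M.Ten (M.hw φ + M.ric H) :=
    hφ.clo.toTen.add ((mHES n M).2.2.2.2.2.2.2.2.1 H hH).toTen
  obtain ⟨-, -, c1, -, c2, -⟩ := st_SC n M H L φ W W hH hφ h h
  have i3 := hi ℝ _ (c1 _ hT).2
  have i4 := hi ℝ _ c2
  have i5 := hi ℝ _ (hφ.nr_sm hs).continuous
  rw [← integral_add' i3 i4, eq_comm, ← sub_eq_zero, ← integral_sub i5 (i3.add i4), ← h1]
  refine integral_congr_ae (Eventually.of_forall fun x => ?_)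
  have he := Mf.ch_mem x
  have hz := Mf.ch_tgt x
  have h2 := HS68.hor_div (phC_sm hH hφ he hz) (h.sm _ he _ hz)
  have h3 := Mf.pd_det_re (hH.pos _ he _ hz)
  refine Eq.symm ((congrArg re ((sub_div _ _ _).symm.trans
    (congrArg (· / (H (M.ch x) (M.ch x x)).det) h2))).trans ?_)
  rw [hess_phC hH hφ he hz, exp_phC hH he hz, ofReal_mul, Mf.herm_det (hH.herm _ he _ hz),
    ← mul_assoc, mul_div_cancel_right₀ _ (hH.det_ne _ he _ hz), re_mul_ofReal, sub_re, sub_re,
    show ∀ a : ℂ, a * star a = (normSq a : ℂ) from mul_conj, ofReal_re, sub_sub, sub_mul, add_mul]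
  rfl

end Pool.Agent.Lib.EXH
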