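import Pool.Agent.Lib.EXH.Blue2

/-! Project ex41, part HY: the decomposition for an abstract sequence of weights. -/

open scoped Classical Topology ContDiff ComplexOrder Matrix ENNReal
open Set MeasureTheory Complex Metric Filter

noncomputable section

namespace Pool.Agent.Lib.EXH

open Pool.Agent.Lib.SV (E)
open Pool.Agent.Lib.HS32 Pool.Agent.Lib.KP
open Pool.Agent.Lib.HS68 (dual wdv)
open Pool.Agent.Lib.KP.T60 (phC)
open Pool.Agent.Lib.VF72 (Lo pB pN Ct idB idN uniq)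

namespace C9

variable {n : ℕ}

theorem cs {T : Mat n} (hT : T.PosSemidef) (v : E n) (k : Fin n) :
    ‖(T *ᵥ v) k‖ ^ 2 ≤ (T k k).re * nq T v := by
  obtain ⟨W, rfl⟩ := Mf.psd_factor hT
  have e1 : ((Wᴴ * W) k k).re = ∑ i, ‖W i k‖ ^ 2 := by
    simp only [Matrix.mul_apply, Matrix.conjTranspose_apply, re_sum, star_def,
      ← normSq_eq_conj_mul_self, ofReal_re, Complex.normSq_eq_norm_sq]
  have e2 : nq (Wᴴ * W) v = ∑ i, ‖(W *ᵥ v) i‖ ^ 2 := by
    rw [nq, ← Matrix.mulVec_mulVec, Matrix.dotProduct_mulVec, ← Matrix.star_mulVec]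
    simp only [dotProduct, re_sum, Pi.star_apply, star_def, ← normSq_eq_conj_mul_self, ofReal_re,
      Complex.normSq_eq_norm_sq]
  rw [e1, e2, ← Matrix.mulVec_mulVec]
  refine le_trans ?_ (Finset.sum_mul_sq_le_sq_mul_sq _ _ _)
  refine pow_le_pow_left₀ (norm_nonneg _) ?_ 2
  change ‖∑ i, Wᴴ k i * (W *ᵥ v) i‖ ≤ _
  refine (norm_sum_le _ _).trans (le_of_eq (Finset.sum_congr rfl fun i _ => ?_))
  rw [norm_mul, Matrix.conjTranspose_apply, norm_star]

theorem comp_le {H : Mat n} (hH : H.PosDef) (v : E n) (k : Fin n) :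
    ‖v k‖ ^ 2 ≤ (H⁻¹ k k).re * nq H v := by
  have u : IsUnit H.det := (Matrix.isUnit_iff_isUnit_det _).1 hH.isUnit
  have h := cs hH.inv.posSemidef (H *ᵥ v) k
  have e : H⁻¹ *ᵥ H *ᵥ v = v := by
    rw [Matrix.mulVec_mulVec, Matrix.nonsing_inv_mul _ u, Matrix.one_mulVec]
  rw [nq, e, Matrix.star_mulVec, hH.isHermitian.eq, ← Matrix.dotProduct_mulVec] at h
  exact h

theorem lo_small {U : Set (E n)} {Q : ℕ → E n → ℂ} {l : Filter ℕ} (hl : l ≤ atTop)
    (h : Lo pB U Q) : Lo (pN l) U fun a z => ((1 / 2 : ℝ) ^ a : ℝ) * Q a z := by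
  intro K hK hs
  obtain ⟨C, hC, h1⟩ := h K hK hs
  have t : Tendsto (fun a : ℕ => ENNReal.ofReal ((1 / 2) ^ a) * C) l (𝓝 0) := by
    have := ENNReal.Tendsto.mul_const (b := C) (ENNReal.tendsto_ofReal
      (tendsto_pow_atTop_nhds_zero_of_lt_one (r := 1 / 2) (by norm_num) (by norm_num)))
      (Or.inr hC)
    simpa using this.mono_left hl
  refine tendsto_of_tendsto_of_tendsto_of_le_of_le tendsto_const_nhds t (fun _ => zero_le)
    fun a => ?_
  have e : ∀ z, ‖(((1 / 2 : ℝ) ^ a : ℝ) : ℂ) * Q a z‖ₑ = ENNReal.ofReal ((1 / 2) ^ a) * ‖Q a z‖ₑ :=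
    fun z => by
      rw [enorm_mul, ← ofReal_norm, Complex.norm_real, Real.norm_of_nonneg (by positivity)]
  simp only [e]
  rw [lintegral_const_mul' _ _ ENNReal.ofReal_ne_top]
  exact mul_le_mul_right (h1 a) _

end C9

theorem st_CORE (hALG : St_ALG) (hSC : St_SC) (hWDV : St_WDV) (hMON : St_MON) (hL : St_L21)
    (hQ : St_QLO) (hVL : St_VLIM) (hDV : St_DIVL) (hCR : St_CRK) : St_CORE := by
  intro n M _ H B θ L φ W w u O C hH hφ hθ h0 hc hA hW hcl
  obtain ⟨s, D, hs, b1, t1, t2, t3⟩ := hMON n M H B θ L φ W w u O C hH hφ hθ h0 hc hA hW hcl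
  obtain ⟨a1, a2, -⟩ := hALG n M H L hH.toMet
  have hX : ∀ j, VeC M L (W - du M H (s j)) ∧ ClV M H (W - du M H (s j)) := fun j =>
    ⟨(a1 _ _ hW (a2 _ (hs j)).1).1, (a1 _ _ hW (a2 _ (hs j)).1).2.2 hcl (a2 _ (hs j)).2.1⟩
  obtain ⟨X, eX⟩ : ∃ X : ℕ → M.Fam (E n), ∀ j, X j = W - du M H (s j) := ⟨_, fun _ => rfl⟩
  simp only [← eX] at hX b1 t1 t2 t3
  have sc := fun j => hSC n M H L φ (X j) (X j) hH.toMet hφ (hX j).1 (hX j).1
  have hl : (hyperfilter ℕ : Filter ℕ) ≤ atTop := Nat.hyperfilter_le_atTop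
  have ex : ∀ e ∈ M.C, ∀ z ∈ e.target, ContinuousAt (fun z => Real.exp (φ e z)) z :=
    fun e he z hz => (hφ.sm e he z hz).continuousAt.rexp
  have ee : ∀ a b y : ℝ, a * Real.exp y * (b * Real.exp (-y)) = a * b := fun a b y => by
    rw [Real.exp_neg]; field_simp
  have cX : ∀ e ∈ M.C, ∀ j, ∀ z ∈ e.target, ∀ k, ContinuousAt (fun z => X j e z k) z :=
    fun e he j z hz k => (contDiffAt_pi.1 ((hX j).1.sm e he z hz) k).continuousAt
  have l1 : ∀ e ∈ M.C, ∀ k, Lo pB e.target fun a z => X a e z k := fun e he k =>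
    (hL n M H ℕ (fun j => tv M H φ (X j)) (fun a z => X a e z k)
      (fun z => ((H e z)⁻¹ k k).re * Real.exp (φ e z)) hH.toMet e he
      (fun j => ⟨((sc j).2.2.1 H hH.toTen).2, fun x => ((sc j).2.2.2.2.2.1 x).1⟩)
      fun z hz => ⟨(cd_re ((hH.sm e he z hz).inv (hH.pos e he z hz).det_pos.ne' k k)).continuousAt.mul
        (ex e he z hz), fun j => by
          rw [((sc j).2.2.1 H hH.toTen).1 e he z hz, ee]
          exact C9.comp_le (hH.pos e he z hz) _ k⟩).1 D b1
  have q0 : ∀ j x, 0 ≤ qv M φ (X j) x := fun j x => by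
    obtain ⟨g, hg⟩ := hQ n M H hH _ (Mf.ch_mem x)
    rw [(sc j).2.2.2.1.at (Mf.ch_mem x) (Mf.mem_ch x)]
    exact mul_nonneg ((hg _ (Mf.ch_tgt x)).2 _ ((hX j).1.sm _ (Mf.ch_mem x) _ (Mf.ch_tgt x))
      ((hX j).2 _ (Mf.ch_mem x) _ (Mf.ch_tgt x))).1 (Real.exp_pos _).le
  have l2 : ∀ e ∈ M.C, ∀ k i, Lo (pN (hyperfilter ℕ : Filter ℕ)) e.target
      fun a => dzb i fun z => X a e z k := fun e he k i => by
    obtain ⟨g, hg⟩ := hQ n M H hH e he
    exact (hL n M H ℕ (fun j => qv M φ (X j)) (fun a => dzb i fun z => X a e z k)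
      (fun z => g z * Real.exp (φ e z)) hH.toMet e he (fun j => ⟨(sc j).2.2.2.2.1, q0 j⟩)
      fun z hz => ⟨(hg z hz).1.mul (ex e he z hz), fun j => by
        rw [(sc j).2.2.2.1 e he z hz, ee]
        exact ((hg z hz).2 _ ((hX j).1.sm e he z hz) ((hX j).2 e he z hz)).2 k i⟩).2 _
      (t1.mono_left hl)
  obtain ⟨V, hV, hol, l3⟩ := hVL n M H L ℕ (hyperfilter ℕ) X hH.toMet (fun j => (hX j).1) l1 l2
  have cV : ∀ e ∈ M.C, ∀ z ∈ e.target, ∀ k, ContinuousAt (fun z => V e z k) z :=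
    fun e he z hz k => (contDiffAt_pi.1 (hV.sm e he z hz) k).continuousAt
  obtain ⟨t, ht, et⟩ := hCR n M H L (hyperfilter ℕ) (W - V) s hH (a1 _ _ hW hV).1 hs
    fun e he k => (l3 e he k).le (idN _) fun a z _ => le_of_eq (by
      rw [eX]; simp only [Pi.sub_apply]; congr 1; ring)
  have p0 : ∀ e ∈ M.C, ∀ z ∈ e.target, (θ e z).PosSemidef := fun e he z hz => by
    simpa using h0 e he z hz
  refine ⟨t, V, ht, hV, hol, fun e he z hz => ⟨?_, ?_, fun hO => ?_⟩⟩
  · rw [← et e he z hz]; simp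
  · funext k
    have cθ : ∀ z ∈ e.target, ∀ i, ContinuousAt (fun z => θ e z k i) z := fun z hz i =>
      (hθ.sm e he z hz k i).continuousAt
    have m1 : Lo (pN (hyperfilter ℕ : Filter ℕ)) e.target fun a z => (θ e z *ᵥ X a e z) k :=
      (hL n M H ℕ (fun j => tv M θ φ (X j)) (fun a z => (θ e z *ᵥ X a e z) k)
        (fun z => (θ e z k k).re * Real.exp (φ e z)) hH.toMet e he
        (fun j => ⟨((sc j).2.2.1 θ hθ.toTen).2, fun x => mul_nonneg
          ((p0 _ (Mf.ch_mem x) _ (Mf.ch_tgt x)).re_dotProduct_nonneg _) (Real.exp_pos _).le⟩)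
        fun z hz => ⟨(cd_re (hθ.sm e he z hz k k)).continuousAt.mul (ex e he z hz), fun j => by
          rw [((sc j).2.2.1 θ hθ.toTen).1 e he z hz, ee]
          exact C9.cs (p0 e he z hz) _ k⟩).2 _ (t2.mono_left hl)
    have m2 := Lo.sum (idN _) Finset.univ
      (fun i => (l3 e he i).mul (idN _) fun z hz => cθ z hz i)
      fun i a z hz => ((cX e he a z hz i).sub (cV e he z hz i)).mul (cθ z hz i)
    refine uniq (l := hyperfilter ℕ) (Q := fun a z => ∑ i, θ e z k i * X a e z i)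
      (P := fun z => ∑ i, θ e z k i * V e z i) (P' := fun _ => 0) e.open_target
      (fun a z hz => tendsto_finsetSum _ fun i _ => (cθ z hz i).mul (cX e he a z hz i))
      (fun z hz => tendsto_finsetSum _ fun i _ => (cθ z hz i).mul (cV e he z hz i))
      (fun _ _ => continuousAt_const) (m2.le (idN _) fun a z _ => le_of_eq ?_)
      (m1.le (idN _) fun a z _ => le_of_eq (by rw [sub_zero]; rfl)) z hz
    simp only [← Finset.sum_sub_distrib]
    congr 1
    exact Finset.sum_congr rfl fun i _ => by ring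
  · have hU : IsOpen (e.target ∩ e.symm ⁻¹' O) := e.symm.isOpen_inter_preimage hA.op
    have wt := fun j => (hφ.addF (hA.sm j)).1
    have sd := fun j => (hWDV n M H L (aw M φ (w j)) (X j) hH.toMet (wt j) (hX j).1).1
    have m1 : Lo (pN (hyperfilter ℕ : Filter ℕ)) e.target
        fun a z => wd M H (aw M φ (w a)) (X a) e z :=
      (hL n M H ℕ (fun j => M.nrC φ (wd M H (aw M φ (w j)) (X j)))
        (fun a z => wd M H (aw M φ (w a)) (X a) e z) (fun z => 1 * Real.exp (φ e z)) hH.toMet e he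
        (fun j => ⟨(hφ.nr_sm (sd j)).continuous, Mf.nrC_nonneg _ _⟩)
        fun z hz => ⟨continuousAt_const.mul (ex e he z hz), fun j => by
          rw [hφ.nr_rep (sd j) e he z hz, ee, one_mul, Complex.normSq_eq_norm_sq]⟩).2 _
        (t3.mono_left hl)
    have s0 : ∀ z ∈ e.target, ContDiffAt ℝ ∞ (fun z => (phC M H φ e z : ℂ)) z := fun z hz =>
      cd_ofReal ((hφ.sm e he z hz).sub ((cd_re (hH.sm e he z hz).det).log
        (Mf.pd_det_re (hH.pos e he z hz)).ne'))
    have e0 : ∀ (v : M.X → ℝ), ∀ z ∈ e.target, ContDiffAt ℝ ∞ (v ∘ e.symm) z → ∀ k,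
        dz k (fun y => (phC M H (aw M φ v) e y : ℂ)) z =
          dz k (fun y => (phC M H φ e y : ℂ)) z + dz k (M.lc v e) z := fun v z hz hv k => by
      refine Eq.trans ?_ (dz_add (cd_diff (s0 z hz)) (cd_diff (cd_ofReal hv)))
      congr 1
      funext y
      simp only [phC, aw, Pi.add_apply, Mf.lc]
      push_cast; ring
    choose g hg using hA.lim e he
    have cu : ∀ z ∈ e.target ∩ e.symm ⁻¹' O, ∀ k, ContinuousAt
        (fun z => dz k (fun y => (phC M H φ e y : ℂ)) z + dz k (M.lc u e) z) z := fun z hz k =>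
      ((cd_dz (s0 z hz.1) k).add (cd_dz (cd_ofReal (hA.su e he z hz.1 hz.2)) k)).continuousAt
    have cw : ∀ z ∈ e.target ∩ e.symm ⁻¹' O, ∀ j k, ContinuousAt
        (fun z => dz k (M.lc (w j) e) z - dz k (M.lc u e) z) z := fun z hz j k =>
      ((cd_dz ((hA.sm j).lc e he z hz.1) k).sub
        (cd_dz (cd_ofReal (hA.su e he z hz.1 hz.2)) k)).continuousAt
    have m2 : ∀ k, Lo (pN (hyperfilter ℕ : Filter ℕ)) (e.target ∩ e.symm ⁻¹' O) fun a z =>
        (dz k (M.lc (w a) e) z - dz k (M.lc u e) z) * X a e z k := fun k =>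
      (C9.lo_small hl ((l1 e he k).sub inter_subset_left)).dom (idN _) (φ := g k)
        (fun z hz => (hg k z hz.1 hz.2).1) fun a z hz => by
          rw [norm_mul, norm_mul, Complex.norm_real, Real.norm_of_nonneg (by positivity),
            ← mul_assoc, mul_comm (g k z)]
          exact mul_le_mul_of_nonneg_right ((hg k z hz.1 hz.2).2 a) (norm_nonneg _)
    have m3 := Lo.sum (idN _) Finset.univ (fun k => (m2 k).add (idN _)
      (((l3 e he k).sub inter_subset_left).mul (idN _) fun z hz => cu z hz k)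
      (fun a z hz => (cw z hz a k).mul (cX e he a z hz.1 k)) fun a z _ => norm_add_le _ _)
      fun k a z hz => ((cw z hz a k).mul (cX e he a z hz.1 k)).add
        (((cX e he a z hz.1 k).sub (cV e he z hz.1 k)).mul (cu z hz k))
    have := hDV n ℕ (hyperfilter ℕ) _ (fun a => X a e) (V e) (fun z => ∑ k,
      (dz k (fun y => (phC M H φ e y : ℂ)) z + dz k (M.lc u e) z) * V e z k) hU
      (fun a z hz => (hX a).1.sm e he z hz.1) (fun z hz => ⟨hV.sm e he z hz.1,
        tendsto_finsetSum _ fun k _ => (cu z hz k).mul (cV e he z hz.1 k)⟩)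
      (fun k => (l3 e he k).sub inter_subset_left)
      ((m1.sub inter_subset_left).add (idN _) m3
        (fun a z hz => ((sd a).sm e he z hz.1).continuousAt) fun a z hz =>
        le_trans (le_of_eq ?_) (norm_add_le _ _)) z ⟨hz, hO⟩
    · simp only [wd, wdv, e0 u z hz (hA.su e he z hz hO), Finset.sum_sub_distrib]
      exact sub_eq_zero.2 this
    · simp only [wd, wdv, dv, e0 (w a) z hz.1 (hA.sm a e he z hz.1), ← Finset.sum_sub_distrib,
        ← Finset.sum_add_distrib]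
      congr 1
      exact Finset.sum_congr rfl fun k _ => by ring

end Pool.Agent.Lib.EXH
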