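import Pool.Agent.Lib.EXH.Blue
import Pool.Agent.Lib.DX.Sol

/-! Project ex41, part HY: minimal representatives. -/

open scoped Classical Topology ContDiff ComplexOrder Matrix ENNReal
open Set MeasureTheory Complex Metric Filter

noncomputable section

namespace Pool.Agent.Lib.EXH

open Pool.Agent.Lib.SV (E)
open Pool.Agent.Lib.HS32 Pool.Agent.Lib.KP
open Pool.Agent.Lib.HS68 (dual wdv)
open Pool.Agent.Lib.HS.SIUK (dzb_hol)
open Pool.Agent.Lib.KP.T60 (phC boxC_eq)

namespace NEAR

variable {n : ℕ} {M : Mf n} {H : M.Fam (Mat n)} {L : M.Co} {φ : M.Fam ℝ} {W W' : M.Fam (E n)}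

theorem wd_sub (h : VeC M L W) (h' : VeC M L W') : M.All fun e z =>
    wd M H φ (W - W') e z = wd M H φ W e z - wd M H φ W' e z := fun e he z hz => by
  simp only [wd, wdv, Pi.sub_apply, ← Finset.sum_sub_distrib]
  refine Finset.sum_congr rfl fun k _ => ?_
  rw [dz_sub (cd_diff (contDiffAt_pi.1 (h.sm e he z hz) k))
    (cd_diff (contDiffAt_pi.1 (h'.sm e he z hz) k))]
  ring

/-- There is a representative without divergence. -/
theorem exact [M.Cpt] (hA : St_ALG) (hD : St_WDV) (hH : M.Kae H) (hw : M.WtC L φ)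
    (h : VeC M L W) :
    ∃ s, M.SecC L s ∧ M.All fun e z => wd M H φ (W - du M H s) e z = 0 := by
  have hm := hH.toMet
  obtain ⟨d1, d2⟩ := hD n M H L φ W hm hw h
  obtain ⟨u, u1, u2⟩ := DX.solve hH hw d1 fun s hs => by
    have h0 : ∀ x, vp M H φ W (du M H s) x = 0 := fun x => by
      have : M.ev (du M H s) x = 0 := by
        have h1 := hs.hol _ (Mf.ch_mem x) _ (Mf.ch_tgt x)
        simp only [Mf.ev, du, dual, dzb_hol h1]
        exact Matrix.mulVec_zero _
      simp only [vp, this, star_zero, zero_dotProduct, zero_mul]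
    rw [d2 s hs.toSecC]
    simp only [h0, integral_zero, neg_zero]
  refine ⟨u, u1, fun e he z hz => ?_⟩
  have h1 := wd_sub (H := H) (φ := φ) h ((hA n M H L hm).2.1 u u1).1 e he z hz
  beta_reduce at h1 ⊢
  rw [h1, ← u2 e he z hz, ← boxC_eq hH hw u1 he hz]
  exact sub_self _

/-- A field without divergence is orthogonal to the range of `du`. -/
theorem orth [M.Cpt] (hD : St_WDV) (hm : M.Met H) (hw : M.WtC L φ) (h : VeC M L W)
    (h0 : M.All fun e z => wd M H φ W e z = 0) {s : M.Fam ℂ} (hs : M.SecC L s) :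
    ∫ x, vp M H φ W (du M H s) x ∂M.mu H = 0 := by
  have h1 := (hD n M H L φ W hm hw h).2 s hs
  have h2 : ∀ x, spC M φ (wd M H φ W) s x = 0 := fun x => by
    simp only [spC, Mf.ev, h0.ch x, zero_mul]
  simp only [h2, integral_zero, zero_eq_neg] at h1
  exact h1

end NEAR

theorem bNEAR (hA : St_ALG) (hS : St_SC) (hD : St_WDV) : St_NEAR := by
  intro n M _ H L φ W δ hH hw h hδ
  have hm := hH.toMet
  obtain ⟨a1, a2, -⟩ := hA n M H L hm
  obtain ⟨-, -, -, -, hi, -⟩ := mMU n M H hm
  obtain ⟨s, s1, s2⟩ := NEAR.exact hA hD hH hw h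
  have r1 := (a1 _ _ h (a2 s s1).1).1
  refine ⟨s, s1, fun s' hs' => ?_, ?_⟩
  · have t1 := hs'.sub s1
    have t2 := (a2 _ t1).1
    obtain ⟨-, c1, c2, -, -, c3, -⟩ := hS n M H L φ _ _ hm hw r1 t2
    obtain ⟨-, -, c4, -, -, c5, -⟩ := hS n M H L φ _ _ hm hw t2 t2
    have i1 := hi _ _ (c2 H hm.toForm.toTen).2
    have i2 := hi _ _ (c4 H hm.toForm.toTen).2
    have i3 := hi _ _ c1
    have e1 : ∀ x, tv M H φ (W - du M H s') x = tv M H φ (W - du M H s) x -
        2 * (vp M H φ (W - du M H s) (du M H (s' - s)) x).re +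
        tv M H φ (du M H (s' - s)) x := fun x => by
      rw [← (c3 x).2]
      have := ((a2 s' hs').2.2.2 s s1).ch x
      simp only [tv, Mf.ev, Pi.sub_apply, this, sub_sub_sub_cancel_right]
    have e2 := integral_re i3
    rw [NEAR.orth hD hm hw r1 s2 t1, map_zero] at e2
    have e3 : ∫ x, (vp M H φ (W - du M H s) (du M H (s' - s)) x).re ∂M.mu H = 0 := e2
    have i4 : Integrable (fun x => 2 * (vp M H φ (W - du M H s) (du M H (s' - s)) x).re)
        (M.mu H) := i3.re.const_mul 2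
    have i5 : Integrable (fun x => tv M H φ (W - du M H s) x -
        2 * (vp M H φ (W - du M H s) (du M H (s' - s)) x).re) (M.mu H) := i1.sub i4
    have e4 : 0 ≤ ∫ x, tv M H φ (du M H (s' - s)) x ∂M.mu H :=
      integral_nonneg fun x => (c5 x).1
    simp only [e1]
    rw [integral_add i5 i2, integral_sub i1 i4, integral_const_mul, e3]
    linarith
  · have h2 : ∀ x, M.nrC φ (wd M H φ (W - du M H s)) x = 0 := fun x => by
      simp only [Mf.nrC, Mf.ev, s2.ch x, map_zero, zero_mul]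
    simp only [h2, integral_zero]
    exact hδ.le

end Pool.Agent.Lib.EXH
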