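import Pool.Agent.Lib.EXH.Blue2
import Pool.Agent.Lib.EXH.B_NEAR

/-! Row `CRK`: the range of `du` is closed. -/

open scoped Classical Topology ContDiff ComplexOrder Matrix ENNReal
open Set MeasureTheory Complex Metric Filter

noncomputable section

namespace Pool.Agent.Lib.EXH

open Pool.Agent.Lib.SV (E)
open Pool.Agent.Lib.HS32 Pool.Agent.Lib.KP
open Pool.Agent.Lib.HS68 (dual wdv)
open Pool.Agent.Lib.KP.T60 (phC)
open Pool.Agent.Lib.VF72 (Lo pB pN idN)

namespace CRK

variable {n : ℕ} {M : Mf n} {H : M.Fam (Mat n)} {L : M.Co} {φ : M.Fam ℝ} {W : M.Fam (E n)}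

/-- From local means to the global integral. -/
theorem glob [M.Cpt] (hH : M.Met H) {ι : Type} {l : Filter ι} {F : ι → M.X → ℂ}
    (h : ∀ e ∈ M.C, Lo (pN l) e.target fun a z => F a (e.symm z)) :
    Tendsto (fun a => ∫ x, F a x ∂M.mu H) l (𝓝 0) := by
  obtain ⟨V, -⟩ := (mCOV n M).2.2.1
  have h1 : ∀ b, Tendsto (fun a => ∫⁻ x in (V.e b).symm '' HS21.Kb V b, ‖F a x‖ₑ ∂M.mu H) l
      (𝓝 0) := fun b => by
    have hs := HS21.BR.kb_sub V b
    have hK := HS21.BR.kb_cpt V b
    simp only [((mMU n M H hH).2.2.2.2.2.1 _ (V.mem b) _ hK.measurableSet hs).2.1]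
    exact (idN l).dom hK (fun z hz => VF72.det_cont hH (V.mem b) (hs hz)) (fun a z _ => le_rfl)
      (h _ (V.mem b) _ hK hs)
  have h2 := tendsto_finsetSum Finset.univ fun b _ => h1 b
  rw [Finset.sum_const_zero] at h2
  refine tendsto_zero_iff_enorm_tendsto_zero.2 (tendsto_of_tendsto_of_tendsto_of_le_of_le
    tendsto_const_nhds h2 (fun _ => zero_le) fun a => (enorm_integral_le_lintegral_enorm _).trans ?_)
  have h3 : (⋃ b, (V.e b).symm '' HS21.Kb V b) = univ := eq_univ_of_forall fun x => by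
    obtain ⟨b, k1, k2⟩ := HS21.BR.kb_nhds V x
    exact mem_iUnion.2 ⟨b, _, mem_of_mem_nhds k2, (V.e b).left_inv k1⟩
  rw [← setLIntegral_univ, ← h3, ← tsum_fintype (L := SummationFilter.unconditional _)]
  exact lintegral_iUnion_le _ _

end CRK

theorem bCRK (h1 : St_ALG) (h2 : St_SC) (h3 : St_WDV) : St_CRK := by
  intro n M _ H L l W s hH hW hs hl
  have hm := hH.toMet
  obtain ⟨φ, hw⟩ := aWT n M L
  obtain ⟨-, -, op, -, hi, -⟩ := mMU n M H hm
  obtain ⟨A1, A2, -⟩ := h1 n M H L hm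
  obtain ⟨t, t1, t2⟩ := NEAR.exact h1 h3 hH hw hW
  have hr := (A1 _ _ hW (A2 t t1).1).1
  set r := W - du M H t with er
  have o : ∀ u, M.SecC L u → ∫ x, vp M H φ r (du M H u) x ∂M.mu H = 0 := fun u hu => by
    have := (h3 n M H L φ r hm hw hr).2 u hu
    simpa [spC, Mf.ev, t2.ch] using this.symm
  have c : ∀ U, VeC M L U → Integrable (vp M H φ r U) (M.mu H) := fun U hU =>
    hi _ _ (h2 n M H L φ r U hm hw hr hU).2.1
  have k : ∀ a, ∫ x, vp M H φ r (W - du M H (s a)) x ∂M.mu H = ∫ x, vp M H φ r r x ∂M.mu H :=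
    fun a => by
    have : ∀ x, vp M H φ r (W - du M H (s a)) x = vp M H φ r r x + (vp M H φ r (du M H t) x -
        vp M H φ r (du M H (s a)) x) := fun x => by
      have : M.ev (W - du M H (s a)) x = M.ev r x + (M.ev (du M H t) x - M.ev (du M H (s a)) x) := by
        simp only [er, Mf.ev, Pi.sub_apply]; abel
      simp only [vp, this, star_add, star_sub, add_dotProduct, sub_dotProduct]; ring
    simp only [this]
    refine (integral_add (c _ hr) ((c _ (A2 t t1).1).sub (c _ (A2 _ (hs a)).1))).trans ?_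
    simp only [Pi.sub_apply]
    rw [integral_sub (c _ (A2 t t1).1) (c _ (A2 _ (hs a)).1), o t t1, o _ (hs a), sub_zero, add_zero]
  have g := CRK.glob hm (l := l) (F := fun a => vp M H φ r (W - du M H (s a))) fun e he => by
    have c1 : ∀ k, ∀ z ∈ e.target, ContinuousAt (fun z => (H e z *ᵥ r e z) k *
        ((Real.exp (-φ e z) : ℝ) : ℂ)) z := fun k z hz =>
      (contDiffAt_pi.1 ((hm.sm e he z hz).mulVec (hr.sm e he z hz)) k).continuousAt.mul
        (cd_ofReal (hw.sm e he z hz).neg.exp).continuousAt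
    have c2 : ∀ k a, ∀ z ∈ e.target, ContinuousAt (fun z => W e z k - du M H (s a) e z k) z :=
      fun k a z hz => (contDiffAt_pi.1 ((A1 _ _ hW (A2 _ (hs a)).1).1.sm e he z hz) k).continuousAt
    refine (Lo.sum (idN _) Finset.univ (R := fun k a z => star (W e z k - du M H (s a) e z k) *
      ((H e z *ᵥ r e z) k * ((Real.exp (-φ e z) : ℝ) : ℂ))) (fun k => Lo.mul (idN _)
        ((hl e he k).le (idN _) fun a z _ => (norm_star _).le) (c1 k))
      fun k a z hz => (c2 k a z hz).star.mul (c1 k z hz)).le (idN _) fun a z hz => le_of_eq ?_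
    rw [(h2 n M H L φ r _ hm hw hr (A1 _ _ hW (A2 _ (hs a)).1).1).1 e he z hz]
    simp only [dotProduct, Finset.sum_mul, mul_assoc, Pi.star_apply, Pi.sub_apply]
  simp only [k, tendsto_const_nhds_iff] at g
  obtain ⟨-, -, S3, -, -, S6, -⟩ := h2 n M H L φ r r hm hw hr hr
  obtain ⟨R1, R2⟩ := S3 H hm.toTen
  have g2 := integral_re (c _ hr)
  rw [g, map_zero] at g2
  have g3 : ∫ x, tv M H φ r x ∂M.mu H = 0 := by
    rw [← g2]
    exact integral_congr_ae (Eventually.of_forall fun x => by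
      simp only [tv, vp, nq, RCLike.re_to_complex, re_mul_ofReal])
  have g4 := (R2.ae_eq_iff_eq (M.mu H) continuous_zero).1
    ((integral_eq_zero_iff_of_nonneg (fun x => (S6 x).1) (hi _ _ R2)).1 g3)
  refine ⟨t, t1, fun e he z hz => sub_eq_zero.1 (by_contra fun h => ?_)⟩
  have g5 := (congrFun g4 (e.symm z)).symm.trans (R1 e he z hz)
  exact (mul_pos (Complex.pos_iff.1 ((hm.pos e he z hz).dotProduct_mulVec_pos h)).1
    (Real.exp_pos _)).ne g5

end Pool.Agent.Lib.EXH
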