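import Pool.Agent.Lib.EXH.Blue

/-! The divergence of a limit. -/

open scoped Classical Topology ContDiff ENNReal
open Set MeasureTheory Complex Filter

noncomputable section

namespace Pool.Agent.Lib.EXH

open Pool.Agent.Lib.SV (E)
open Pool.Agent.Lib.HS32 Pool.Agent.Lib.VF72

theorem st_DIVL51 : St_DIVL := by
  intro n ι l _ U W V g hU hW hV h h'
  have sV : ∀ k, ∀ z ∈ U, ContDiffAt ℝ ∞ (fun w => V w k) z := fun k z hz =>
    contDiffAt_pi.1 (hV z hz).1 k
  have sW : ∀ a k, ∀ z ∈ U, ContDiffAt ℝ ∞ (fun w => W a w k) z := fun a k z hz =>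
    contDiffAt_pi.1 (hW a z hz) k
  have cV : ∀ z ∈ U, ContinuousAt (fun z => dv V z - g z) z := fun z hz =>
    (ContDiffAt.sum fun k _ => cd_dz (sV k z hz) k).continuousAt.sub (hV z hz).2
  have cW : ∀ a, ∀ z ∈ U, ContinuousAt (fun z => dv (W a) z - g z) z := fun a z hz =>
    (ContDiffAt.sum fun k _ => cd_dz (sW a k z hz) k).continuousAt.sub (hV z hz).2
  have c : ContinuousOn (fun z => dv V z - g z) U := fun z hz => (cV z hz).continuousWithinAt
  have key := hU.ae_eq_zero_of_integral_contDiff_smul_eq_zero (μ := volume)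
    (c.locallyIntegrableOn hU.measurableSet) fun χ h1 h2 h3 => by
      have s1 : ∀ z ∈ U, ContDiffAt ℝ ∞ (fun z => (χ z : ℂ)) z := fun z _ =>
        cd_ofReal h1.contDiffAt
      have s0 : ∀ z ∈ U, z ∉ tsupport χ → (χ z : ℂ) = 0 := fun z _ hz => by
        simp [image_eq_zero_of_notMem_tsupport hz]
      have t1 := tendsto_zero_iff_enorm_tendsto_zero.2
        (pair (idN l) hU h2 h3 (fun z hz => (s1 z hz).continuousAt) s0 h')
      have t2 := tendsto_finsetSum Finset.univ fun k _ => tendsto_zero_iff_enorm_tendsto_zero.2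
        (pair (idN l) hU h2 h3 (fun z hz => (cd_dz (s1 z hz) k).continuousAt)
          (off hU h2 s0 k).1 (h k))
      have t := t1.add t2
      rw [Finset.sum_const_zero, add_zero] at t
      rw [← setIntegral_eq_integral_of_forall_compl_eq_zero (s := U) fun z hz => by
        simp [image_eq_zero_of_notMem_tsupport fun h => hz (h3 h)]]
      refine tendsto_nhds_unique tendsto_const_nhds (t.congr fun a => ?_)
      have d := fun k z hz => (sW a k z hz).sub (sV k z hz)
      have i : ∀ {f : E n → ℂ}, (∀ z ∈ U, ContinuousAt f z) →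
          IntegrableOn (fun z => χ z * f z) U := fun hf => intU hU h2 h3
        (fun z hz => (s1 z hz).continuousAt.mul (hf z hz)) fun z hz h => by
          rw [s0 z hz h, zero_mul]
      have i2 := fun k => i fun z hz => (cd_dz (d k z hz) k).continuousAt
      rw [Finset.sum_congr rfl fun k _ => neg_eq_iff_eq_neg.1 (ibp hU h2 h3 s1 s0 (d k) k).1.symm,
        Finset.sum_neg_distrib, ← integral_finsetSum _ fun k _ => i2 k, ← sub_eq_add_neg,
        ← integral_sub (i (cW a)) (integrable_finsetSum _ fun k _ => i2 k)]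
      refine setIntegral_congr_fun hU.measurableSet fun z hz => ?_
      simp only [real_smul, dv, fun k => dz_sub (j := k) (cd_diff (sW a k z hz)) (cd_diff (sV k z hz)),
        ← Finset.mul_sum, Finset.sum_sub_distrib]
      ring
  intro z hz
  exact sub_eq_zero.1 (Measure.eqOn_open_of_ae_eq (μ := volume)
    ((ae_restrict_iff' hU.measurableSet).2 key) hU c continuousOn_const hz)

end Pool.Agent.Lib.EXH
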