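import Pool.Agent.Lib.EXH.Blue
import Pool.Agent.Lib.HS.B_SLIM

/-! Project ex41, part HY: from global square means to local means. -/

open scoped Classical Topology ContDiff ComplexOrder Matrix ENNReal
open Set MeasureTheory Complex Metric Filter

noncomputable section

namespace Pool.Agent.Lib.EXH

open Pool.Agent.Lib.HS32 Pool.Agent.Lib.VF72

theorem st_L2186 : St_L21 := by
  intro n M _ H ι p Q g hH e he hp hg
  have key : ∀ K, IsCompact K → K ⊆ e.target → ∃ A : ℝ, 0 ≤ A ∧ ∀ ε, 0 < ε → ∀ a,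
      ∫⁻ z in K, ‖Q a z‖ₑ ≤ ENNReal.ofReal ε * volume K +
        ENNReal.ofReal (A / ε * ∫ x, p a x ∂M.mu H) := fun K hK hs => by
    have d := fun z hz => Mf.pd_det_re (hH.pos e he z (hs hz))
    obtain ⟨A, h0, hA⟩ := BBD.up hK (f := fun z => g z / (H e z).det.re) fun z hz =>
      (hg z (hs hz)).1.div (det_cont hH he (hs hz)) (d z hz).ne'
    refine ⟨A, h0.le, fun ε hε a => HS.BSLIM.l1 mMU hH he hK hs (hp a).1 (hp a).2 h0.le
      (fun z hz => ((hg z (hs hz)).2 a).trans ?_) hε⟩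
    rw [← mul_assoc]
    exact mul_le_mul_of_nonneg_right ((div_le_iff₀ (d z hz)).1 (hA z hz)) ((hp a).2 _)
  refine ⟨fun D hD K hK hs => ?_, fun l hl K hK hs => ?_⟩
  · obtain ⟨A, h0, hA⟩ := key K hK hs
    refine ⟨ENNReal.ofReal 1 * volume K + ENNReal.ofReal (A / 1 * D), ENNReal.add_ne_top.2
      ⟨ENNReal.mul_ne_top ENNReal.ofReal_ne_top hK.measure_lt_top.ne, ENNReal.ofReal_ne_top⟩,
      fun a => (hA 1 one_pos a).trans ?_⟩
    gcongr
    exact hD a
  · obtain ⟨A, -, hA⟩ := key K hK hs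
    exact HS.BSLIM.small hK.measure_lt_top.ne hl hA

end Pool.Agent.Lib.EXH
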