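import Pool.Agent.Lib.EXH.Blue

/-! Project ex41, part HY: the sequence of representatives. -/

open scoped Classical Topology ContDiff ComplexOrder Matrix ENNReal
open Set MeasureTheory Complex Metric Filter

noncomputable section

namespace Pool.Agent.Lib.EXH

open Pool.Agent.Lib.SV (E)
open Pool.Agent.Lib.HS32 Pool.Agent.Lib.KP

namespace M9

theorem gap {a : ℕ → ℝ} {D : ℝ} (h : ∀ j, a j ≤ a (j + 1) + (1 / 2) ^ j) (hD : ∀ j, a j ≤ D) :
    Tendsto (fun j => a (j + 1) - a j + (1 / 2) ^ j) atTop (𝓝 0) := by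
  have m : Monotone fun j => a j - 2 * (1 / 2) ^ j := monotone_nat_of_le_succ fun j => by
    have := h j
    rw [pow_succ]; linarith
  have t := tendsto_atTop_ciSup m ⟨D, by
    rintro _ ⟨j, rfl⟩
    have : (0 : ℝ) ≤ (1 / 2) ^ j := by positivity
    linarith [hD j]⟩
  have := ((tendsto_add_atTop_iff_nat 1).2 t).sub t
  rw [sub_self] at this
  exact this.congr fun j => by rw [pow_succ]; ring

theorem nq_lo {n : ℕ} {A θ B S H : Mat n} {c : ℝ} (e : A = θ + B + S)
    (h : (B + S + c • H).PosSemidef) (v : E n) : nq θ v ≤ nq A v + c * nq H v := by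
  have := h.re_dotProduct_nonneg v
  simp only [e, nq, Matrix.add_mulVec, dotProduct_add, Matrix.smul_mulVec, dotProduct_smul,
    RCLike.re_to_complex, add_re, real_smul, re_ofReal_mul] at this ⊢
  linarith

end M9

theorem st_MON9 (hALG : St_ALG) (hSC : St_SC) (hWDV : St_WDV) (hN : St_NEAR) (hB : St_BOC)
    (hQ : St_QLO) : St_MON := by
  intro n M _ H B θ L φ W w u O C hH hφ hθ h0 hc hA hW hcl
  have wt : ∀ j, M.WtC L (aw M φ (w j)) := fun j => (hφ.addF (hA.sm j)).1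
  have d0 : ∀ j : ℕ, (0 : ℝ) < (1 / 2) ^ j := fun j => by positivity
  have d1 : ∀ j : ℕ, ((1 : ℝ) / 2) ^ j ≤ 1 := fun j => pow_le_one₀ (by norm_num) (by norm_num)
  have dt : Tendsto (fun j : ℕ => ((1 : ℝ) / 2) ^ j) atTop (𝓝 0) :=
    tendsto_pow_atTop_nhds_zero_of_lt_one (by norm_num) (by norm_num)
  choose s hs m1 m2 using fun j => hN n M H L _ W _ hH (wt j) hW (d0 j)
  obtain ⟨a1, a2, -⟩ := hALG n M H L hH.toMet
  have hX : ∀ t, M.SecC L t → VeC M L (W - du M H t) ∧ ClV M H (W - du M H t) := fun t ht =>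
    ⟨(a1 _ _ hW (a2 _ ht).1).1, (a1 _ _ hW (a2 _ ht).1).2.2 hcl (a2 _ ht).2.1⟩
  have itg := (mMU n M H hH.toMet).2.2.2.2.1 ℝ
  have sc := fun t ht => hSC n M H L φ _ _ hH.toMet hφ (hX t ht).1 (hX t ht).1
  have sw := fun j t ht => hSC n M H L _ _ _ hH.toMet (wt j) (hX t ht).1 (hX t ht).1
  obtain ⟨K, hK⟩ := (isCompact_range (hA.sm 0).continuous).bddAbove
  have wK : ∀ j x, w j x ≤ K := fun j x =>
    (antitone_nat_of_succ_le (f := fun j => w j x) (fun j => hA.anti j x) (Nat.zero_le j)).trans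
      (hK ⟨x, rfl⟩)
  have up : ∀ j (p : M.X → ℝ), Continuous p → (∀ x, 0 ≤ p x) →
      ∫ x, p x ∂M.mu H ≤ Real.exp K * ∫ x, p x * Real.exp (-w j x) ∂M.mu H := fun j p hp p0 => by
    rw [← integral_const_mul]
    refine integral_mono (itg _ hp)
      (itg _ (continuous_const.mul (hp.mul (hA.sm j).continuous.neg.rexp))) fun x => ?_
    beta_reduce
    rw [mul_left_comm, ← Real.exp_add]
    exact le_mul_of_one_le_right (p0 x) (Real.one_le_exp (by linarith [wK j x]))
  have ew := fun t ht j T r x => (sc t ht).2.2.2.2.2.2 (w j) T r x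
  have t0 := fun t ht x => ((sc t ht).2.2.2.2.2.1 x).1
  have ct := fun t ht => ((sc t ht).2.2.1 H hH.toTen).2
  obtain ⟨R, hR⟩ := (isCompact_range (ct 0 Mf.secC_zero)).bddAbove
  have R0 : ∀ x, tv M H φ (W - du M H 0) x ≤ |R| := fun x => (hR ⟨x, rfl⟩).trans (le_abs_self R)
  have aD : ∀ j, ∫ x, tv M H (aw M φ (w j)) (W - du M H (s j)) x ∂M.mu H ≤ |R| * C + 1 :=
    fun j => by
    refine (m1 j 0 Mf.secC_zero).trans (add_le_add (le_trans ?_
      (mul_le_mul_of_nonneg_left (hA.itg j) (abs_nonneg R))) (d1 j))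
    rw [← integral_const_mul]
    refine integral_mono (itg _ ((sw j 0 Mf.secC_zero).2.2.1 H hH.toTen).2)
      (itg _ (continuous_const.mul (hA.sm j).continuous.neg.rexp)) fun x => ?_
    beta_reduce
    rw [(ew 0 Mf.secC_zero j H 0 x).1]
    exact mul_le_mul_of_nonneg_right (R0 x) (Real.exp_pos _).le
  have mo : ∀ j t, M.SecC L t → ∫ x, tv M H (aw M φ (w j)) (W - du M H t) x ∂M.mu H ≤
      ∫ x, tv M H (aw M φ (w (j + 1))) (W - du M H t) x ∂M.mu H := fun j t ht =>
    integral_mono (itg _ ((sw j t ht).2.2.1 H hH.toTen).2)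
      (itg _ ((sw (j + 1) t ht).2.2.1 H hH.toTen).2) fun x => by
        beta_reduce
        rw [(ew t ht j H 0 x).1, (ew t ht (j + 1) H 0 x).1]
        exact mul_le_mul_of_nonneg_left (Real.exp_le_exp.2 (neg_le_neg (hA.anti j x))) (t0 t ht x)
  have gp := M9.gap (fun j => (m1 j _ (hs (j + 1))).trans
    (add_le_add (mo j _ (hs (j + 1))) le_rfl)) aD
  have q0 : ∀ t, M.SecC L t → ∀ x, 0 ≤ qv M φ (W - du M H t) x := fun t ht x => by
    obtain ⟨g, hg⟩ := hQ n M H hH _ (Mf.ch_mem x)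
    rw [(sc t ht).2.2.2.1.at (Mf.ch_mem x) (Mf.mem_ch x)]
    exact mul_nonneg ((hg _ (Mf.ch_tgt x)).2 _ ((hX t ht).1.sm _ (Mf.ch_mem x) _ (Mf.ch_tgt x))
      ((hX t ht).2 _ (Mf.ch_mem x) _ (Mf.ch_tgt x))).1 (Real.exp_pos _).le
  have p0 : ∀ t x, 0 ≤ tv M θ φ (W - du M H t) x := fun t x => by
    have : (θ (M.ch x) (M.ch x x)).PosSemidef := by simpa using h0.ch x
    exact mul_nonneg (this.re_dotProduct_nonneg _) (Real.exp_pos _).le
  have key : ∀ j, ∫ x, tv M θ φ (W - du M H (s (j + 1))) x * Real.exp (-w (j + 1) x) ∂M.mu H +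
      ∫ x, qv M φ (W - du M H (s (j + 1))) x * Real.exp (-w (j + 1) x) ∂M.mu H ≤
      (1 / 2) ^ (j + 1) + C * (∫ x, tv M H (aw M φ (w (j + 1))) (W - du M H (s (j + 1))) x ∂M.mu H -
        ∫ x, tv M H (aw M φ (w j)) (W - du M H (s j)) x ∂M.mu H + (1 / 2) ^ j) := fun j => by
    have b := hB n M H L _ _ hH.toMet (wt (j + 1)) (hX _ (hs (j + 1))).1
    have tT : M.Ten (M.hw (aw M φ (w (j + 1))) + M.ric H) := (wt (j + 1)).clo.toTen.add
      ((mHES n M).2.2.2.2.2.2.2.2.1 H hH.toMet).toTen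
    have i1 := itg _ ((sw (j + 1) _ (hs (j + 1))).2.2.1 _ tT).2
    have i2 := itg _ ((sw (j + 1) _ (hs (j + 1))).2.2.1 H hH.toTen).2
    have i3 := itg _ ((sw j _ (hs (j + 1))).2.2.1 H hH.toTen).2
    have i4 := integral_mono (itg _ ((sw (j + 1) _ (hs (j + 1))).2.2.1 θ hθ.toTen).2)
      (i1.add ((i2.sub i3).const_mul C)) fun x => by
        have c1 := M9.nq_lo (θ := θ (M.ch x) (M.ch x x))
          (A := (M.hw (aw M φ (w (j + 1))) + M.ric H) (M.ch x) (M.ch x x)) (by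
            rw [← hc.ch x, Pi.add_apply, Pi.add_apply, aw, (hφ.addF (hA.sm (j + 1))).2.ch x]
            abel) ((hA.cur j).ch x) (M.ev (W - du M H (s (j + 1))) x)
        rw [Mf.ch_symm] at c1
        simp only [Pi.add_apply, Pi.sub_apply]
        rw [(ew _ (hs (j + 1)) (j + 1) θ 0 x).1, (ew _ (hs (j + 1)) (j + 1) H 0 x).1,
          (ew _ (hs (j + 1)) j H 0 x).1, (ew _ (hs (j + 1)) (j + 1) _ 0 x).1,
          show -w j x = w (j + 1) x - w j x + -w (j + 1) x by ring, Real.exp_add]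
        have := mul_le_mul_of_nonneg_right c1
          (mul_pos (Real.exp_pos (-M.ev φ x)) (Real.exp_pos (-w (j + 1) x))).le
        simp only [tv]
        refine le_trans (le_of_eq ?_) (this.trans (le_of_eq ?_))
        · rw [mul_assoc]; rfl
        · simp only [Mf.ev]; ring
    simp only [Pi.add_apply, Pi.sub_apply] at i4
    have i5 := integral_add i1 ((i2.sub i3).const_mul C)
    simp only [Pi.sub_apply] at i5
    rw [i5, integral_const_mul, integral_sub i2 i3] at i4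
    simp only [(fun x => (ew _ (hs (j + 1)) (j + 1) θ 0 x).1)] at i4
    simp only [(fun x => (ew _ (hs (j + 1)) (j + 1) θ 0 x).2.1)] at b
    have := mul_le_mul_of_nonneg_left (m1 j _ (hs (j + 1))) hA.c0
    linarith [m2 (j + 1)]
  have lim := (((tendsto_add_atTop_iff_nat 1).2 dt).add (gp.const_mul C)).const_mul (Real.exp K)
  simp only [mul_zero, add_zero] at lim
  have n1 : ∀ j, 0 ≤ ∫ x, tv M θ φ (W - du M H (s (j + 1))) x * Real.exp (-w (j + 1) x) ∂M.mu H :=
    fun j => integral_nonneg fun x => mul_nonneg (p0 _ x) (Real.exp_pos _).le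
  have n2 : ∀ j, 0 ≤ ∫ x, qv M φ (W - du M H (s (j + 1))) x * Real.exp (-w (j + 1) x) ∂M.mu H :=
    fun j => integral_nonneg fun x => mul_nonneg (q0 _ (hs _) x) (Real.exp_pos _).le
  refine ⟨s, Real.exp K * (|R| * C + 1), hs, fun j => ?_, ?_, ?_, ?_⟩
  · refine (up j _ (ct _ (hs j)) (t0 _ (hs j))).trans
      (mul_le_mul_of_nonneg_left (le_trans (le_of_eq ?_) (aD j)) (Real.exp_pos _).le)
    simp only [(fun x => (ew _ (hs j) j H 0 x).1)]
  · refine (tendsto_add_atTop_iff_nat 1).1 (squeeze_zero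
      (fun j => integral_nonneg (q0 _ (hs _))) (fun j => ?_) lim)
    exact (up (j + 1) _ (sc _ (hs _)).2.2.2.2.1 (q0 _ (hs _))).trans
      (mul_le_mul_of_nonneg_left (by linarith [key j, n1 j]) (Real.exp_pos _).le)
  · refine (tendsto_add_atTop_iff_nat 1).1 (squeeze_zero
      (fun j => integral_nonneg (p0 _)) (fun j => ?_) lim)
    exact (up (j + 1) _ ((sc _ (hs _)).2.2.1 θ hθ.toTen).2 (p0 _)).trans
      (mul_le_mul_of_nonneg_left (by linarith [key j, n2 j]) (Real.exp_pos _).le)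
  · have := dt.const_mul (Real.exp K)
    rw [mul_zero] at this
    refine squeeze_zero (fun j => integral_nonneg (Mf.nrC_nonneg _ _)) (fun j => ?_) this
    refine (up j _ (hφ.nr_sm (hWDV n M H L _ _ hH.toMet (wt j) (hX _ (hs j)).1).1).continuous
      (Mf.nrC_nonneg _ _)).trans
      (mul_le_mul_of_nonneg_left (le_trans (le_of_eq ?_) (m2 j)) (Real.exp_pos _).le)
    simp only [(fun r x => (ew _ (hs j) j H r x).2.2)]

end Pool.Agent.Lib.EXH
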