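import Pool.Agent.Lib.EXH.Blue
import Pool.Agent.Lib.DX.Aff

/-! The gradient term bounds the derivatives. -/

open scoped Classical Topology ContDiff ComplexOrder Matrix
open Set Complex Filter

noncomputable section

namespace Pool.Agent.Lib.EXH

open Pool.Agent.Lib.SV (E)
open Pool.Agent.Lib.HS32
open Pool.Agent.Lib.HS68 (met_loc Loc)

namespace QLO

variable {n : ℕ} {A : E n → Mat n} {z : E n} {W : E n → E n}

theorem symm (h : Loc A z) (hK : ClM A z) (hW : ContDiffAt ℝ ∞ W z)
    (hc : ∀ i j, dzb i (fun w => (A w *ᵥ W w) j) z = dzb j (fun w => (A w *ᵥ W w) i) z) :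
    (A z * Matrix.of fun k l => dzb l (fun w => W w k) z).IsSymm := by
  have dW : ∀ k, DifferentiableAt ℝ (fun w => W w k) z := fun k => cd_diff (contDiffAt_pi.1 hW k)
  have e : ∀ i j, dzb j (fun w => (A w *ᵥ W w) i) z = ∑ k, dzb j (fun w => A w i k) z * W z k +
      (A z * Matrix.of fun k l => dzb l (fun w => W w k) z) i j := fun i j => by
    simp only [Matrix.mulVec, dotProduct, Matrix.mul_apply, Matrix.of_apply]
    rw [dzb_sum fun k _ => (h.sm.diff i k).fun_mul (dW k), ← Finset.sum_add_distrib]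
    exact Finset.sum_congr rfl fun k _ => dzb_mul (h.sm.diff i k) (dW k)
  have s : ∀ i j k, dzb j (fun w => A w i k) z = star (dM j A z k i) := fun i j k => by
    have : (fun w => A w i k) =ᶠ[𝓝 z] fun w => star (A w k i) :=
      h.herm.mono fun w hw => (hw.apply i k).symm
    rw [dzb_congr this, dzb_star (h.sm.diff k i)]
    rfl
  refine Matrix.IsSymm.ext fun i j => ?_
  have := hc i j
  rw [e, e] at this
  simp only [s, hK _ j i] at this
  exact add_left_cancel this

end QLO

theorem bQLO : St_QLO := by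
  intro n M H hH e he
  refine ⟨fun z => (|((H e z)⁻¹).trace.re| + |(H e z).trace.re|) ^ 2, fun z hz => ?_⟩
  have L := met_loc hH.toMet he hz
  refine ⟨((cd_re (L.sm.inv L.pos.det_pos.ne').trace).continuousAt.abs.add
    (cd_re L.sm.trace).continuousAt.abs).pow 2, fun W hW hc => ?_⟩
  have h1 := abs_nonneg ((H e z)⁻¹).trace.re
  have h2 := abs_nonneg (H e z).trace.re
  have k := DX.symm_lo L.pos (QLO.symm L (hH.cl e he z hz) hW hc) (add_nonneg h1 h2)
    (HS76.le_tr_smul L.pos Matrix.PosSemidef.one (by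
      rw [mul_one]; linarith [le_abs_self ((H e z)⁻¹).trace.re]))
    (HS76.le_tr_smul Matrix.PosDef.one L.pos.posSemidef (by
      rw [inv_one, one_mul]; linarith [le_abs_self (H e z).trace.re]))
  refine ⟨(Complex.le_def.1 (HS68.symm_trace_nonneg L.pos (QLO.symm L (hH.cl e he z hz) hW hc))).1,
    fun a b => le_trans ?_ k⟩
  rw [← Complex.normSq_eq_norm_sq]
  exact (Finset.single_le_sum (f := fun l => normSq (dzb l (fun w => W w a) z))
    (fun _ _ => normSq_nonneg _) (Finset.mem_univ b)).trans
    (Finset.single_le_sum (f := fun k => ∑ l, normSq (dzb l (fun w => W w k) z))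
      (fun _ _ => Finset.sum_nonneg fun _ _ => normSq_nonneg _) (Finset.mem_univ a))

end Pool.Agent.Lib.EXH
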