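import Pool.Agent.Lib.EXH.Blue

/-! Row VLIM: holomorphic limit of a family of fields. -/

open scoped Classical Topology ContDiff ComplexOrder Matrix ENNReal
open Set MeasureTheory Complex Metric Filter

noncomputable section

namespace Pool.Agent.Lib.EXH

open Pool.Agent.Lib.SV (E)
open Pool.Agent.Lib.HS32 Pool.Agent.Lib.KP
open Pool.Agent.Lib.VF72 (Lo pB pN ov ov_open ov_hol limh uniq idN Ct)

theorem st_VLIM39 : St_VLIM := by
  intro n M _ H L ι l W hH hW hb h0
  have loc : ∀ (e : M.Ch) (k : Fin n), ∃ P : E n → ℂ, e ∈ M.C →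
      (∀ z ∈ e.target, HolN P z) ∧ Lo (pN l) e.target fun a z => W a e z k - P z := fun e k => by
    by_cases he : e ∈ M.C
    · obtain ⟨P, hP⟩ := limh l (Q := fun a z => W a e z k) e.open_target
        (fun a z hz => contDiffAt_pi.1 ((hW a).sm e he z hz) k) (hb e he k) (h0 e he k)
      exact ⟨P, fun _ => hP⟩
    · exact ⟨0, fun h => absurd h he⟩
  choose P hP using loc
  refine ⟨fun e z k => P e k z, ⟨fun e he z hz => contDiffAt_pi.2 fun k =>
    BHOL.smooth ((hP e k he).1 z hz), fun e he e' he' x hx hx' => funext fun i => ?_⟩,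
    fun e he z hz k => (hP e k he).1 z hz, fun e he k => (hP e k he).2⟩
  have cJ : ∀ k, ∀ w ∈ ov e e' e.target, ContinuousAt (fun w => jm (e ∘ e'.symm) w i k) w :=
    fun k w hw => ((mCHN n _ _ (ov_hol he he' hw)).2.1 i k).continuousAt
  have cc : ∀ w ∈ ov e e' e.target, ContinuousAt (fun w => L.c e e' (e'.symm w)) w :=
    fun w hw => by
      have h1 := (L.hol e he e' he' _ hw.2.1 (e'.map_target hw.1)).self_of_nhds.continuousAt
      rwa [e'.right_inv hw.1] at h1
  have cW : ∀ k, Ct (ov e e' e.target) fun a w => W a e' w k := fun k a w hw =>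
    (contDiffAt_pi.1 ((hW a).sm e' he' w hw.1) k).continuousAt
  have cP : ∀ k, ∀ w ∈ ov e e' e.target, ContinuousAt (P e' k) w := fun k w hw =>
    ((hP e' k he').1 w hw.1).self_of_nhds.continuousAt
  have key := uniq (l := l) (U := ov e e' e.target)
    (Q := fun a w => ∑ k, jm (e ∘ e'.symm) w i k * W a e' w k)
    (P := fun w => ∑ k, jm (e ∘ e'.symm) w i k * P e' k w)
    (P' := fun w => L.c e e' (e'.symm w) * P e i (e (e'.symm w))) (ov_open e.open_target)
    (fun a w hw => tendsto_finsetSum _ fun k _ => (cJ k w hw).mul (cW k a w hw))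
    (fun w hw => tendsto_finsetSum _ fun k _ => (cJ k w hw).mul (cP k w hw))
    (fun w hw => (cc w hw).mul (ContinuousAt.comp (f := e ∘ e'.symm)
      ((hP e i he).1 _ hw.2.2).self_of_nhds.continuousAt
      (ov_hol he he' hw).self_of_nhds.continuousAt))
    ((Lo.sum (idN _) Finset.univ
      (R := fun k a w => (W a e' w k - P e' k w) * jm (e ∘ e'.symm) w i k)
      (fun k => ((hP e' k he').2.sub inter_subset_left).mul (idN _) (cJ k))
      fun k a w hw => ((cW k a w hw).sub (cP k w hw)).mul (cJ k w hw)).le (idN _)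
      fun a w _ => le_of_eq (congrArg _ (by
        rw [← Finset.sum_sub_distrib]
        exact Finset.sum_congr rfl fun k _ => by ring)))
    (((((hP e i he).2.chg (idN _) hH he he')).mul (idN _) cc).le (idN _) fun a w hw =>
      le_of_eq (congrArg _ (by
        have h1 := congrFun ((hW a).cmp e he e' he' _ hw.2.1 (e'.map_target hw.1)) i
        rw [Mf.J, e'.right_inv hw.1] at h1
        have h2 : ∑ k, jm (e ∘ e'.symm) w i k * W a e' w k =
          L.c e e' (e'.symm w) * W a e (e (e'.symm w)) i := h1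
        rw [h2]
        ring)))
    (e' x) ⟨e'.map_source hx', by
      simp only [mem_preimage, mem_inter_iff, e'.left_inv hx']
      exact ⟨hx, e.map_source hx⟩⟩
  rw [e'.left_inv hx'] at key
  exact key

end Pool.Agent.Lib.EXH
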