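import Pool.Agent.Lib.EXH.B_ALG
import Pool.Agent.Lib.EXH.B_APX
import Pool.Agent.Lib.EXH.B_BOC
import Pool.Agent.Lib.EXH.B_CORE9
import Pool.Agent.Lib.EXH.B_CRK
import Pool.Agent.Lib.EXH.B_DIVL51
import Pool.Agent.Lib.EXH.B_L2186
import Pool.Agent.Lib.EXH.B_MON9
import Pool.Agent.Lib.EXH.B_NEAR
import Pool.Agent.Lib.EXH.B_QLO
import Pool.Agent.Lib.EXH.B_VLIM39

/-! Project ex41, part HY: the decomposition, without hypotheses. -/

namespace Pool.Agent.Lib.EXH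

theorem aCORE9 : St_CORE :=
  st_CORE st_ALG st_SC st_WDV (st_MON9 st_ALG st_SC st_WDV (bNEAR st_ALG st_SC st_WDV) st_BOC bQLO)
    st_L2186 bQLO st_VLIM39 st_DIVL51 (bCRK st_ALG st_SC st_WDV)

theorem aHD9 : St_HD := hd_of aCORE9 st_APX

end Pool.Agent.Lib.EXH
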