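import Pool.Agent.Lib.KP.B_SIU
import Pool.Agent.Lib.VF72.Lim

/-! Project ex41, part HY: the decomposition of closed forms of type `(0,1)`. Blueprint. -/

open scoped Classical Topology ContDiff ComplexOrder Matrix ENNReal
open Set MeasureTheory Complex Metric Filter

set_option linter.unusedVariables false

noncomputable section

namespace Pool.Agent.Lib.EXH

open Pool.Agent.Lib.SV (E)
open Pool.Agent.Lib.HS32 Pool.Agent.Lib.KP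
open Pool.Agent.Lib.HS68 (dual wdv)
open Pool.Agent.Lib.KP.T60 (phC)
open Pool.Agent.Lib.VF72 (Lo pB pN)

variable {n : ℕ} (M : Mf n)

/-- A smooth vector field with values in `L`. -/
structure VeC (L : M.Co) (W : M.Fam (E n)) : Prop where
  sm : M.All fun e z => ContDiffAt ℝ ∞ (W e) z
  cmp : M.Ov fun e e' x => M.J e e' x *ᵥ W e' (e' x) = L.c e e' x • W e (e x)

/-- The form `H W` of type `(0,1)` is closed. -/
def ClV (H : M.Fam (Mat n)) (W : M.Fam (E n)) : Prop := M.All fun e z => ∀ i j,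
  dzb i (fun w => (H e w *ᵥ W e w) j) z = dzb j (fun w => (H e w *ᵥ W e w) i) z

/-- The components are holomorphic. -/
def HolV (W : M.Fam (E n)) : Prop := M.All fun e z => ∀ k, HolN (fun w => W e w k) z

/-- The field dual to the `(0,1)` derivative of a section. -/
def du (H : M.Fam (Mat n)) (s : M.Fam ℂ) : M.Fam (E n) := fun e => dual (H e) (s e)

/-- The weighted divergence. -/
def wd (H : M.Fam (Mat n)) (φ : M.Fam ℝ) (W : M.Fam (E n)) : M.Fam ℂ :=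
  fun e => wdv (phC M H φ e) (W e)

/-- Pointwise product of two fields. -/
def vp (H : M.Fam (Mat n)) (φ : M.Fam ℝ) (W W' : M.Fam (E n)) (x : M.X) : ℂ :=
  (star (M.ev W' x) ⬝ᵥ M.ev H x *ᵥ M.ev W x) * (Real.exp (-M.ev φ x) : ℝ)

/-- The form `T` evaluated on a field. -/
def tv (T : M.Fam (Mat n)) (φ : M.Fam ℝ) (W : M.Fam (E n)) (x : M.X) : ℝ :=
  nq (M.ev T x) (M.ev W x) * Real.exp (-M.ev φ x)

/-- The gradient term in coordinates. -/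
def qL (W : E n → E n) (z : E n) : ℂ :=
  ∑ k, ∑ l, dzb l (fun w => W w k) z * star (dzb k (fun w => W w l) z)

/-- The gradient term. -/
def qv (φ : M.Fam ℝ) (W : M.Fam (E n)) (x : M.X) : ℝ :=
  (M.ev (fun e => qL (W e)) x).re * Real.exp (-M.ev φ x)

/-- The weight `φ + w`. -/
def aw (φ : M.Fam ℝ) (w : M.X → ℝ) : M.Fam ℝ := φ + fun e z => w (e.symm z)

/-- A decreasing sequence of smooth weights with limit `u` on the open set `O`. -/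
structure Ax (H B : M.Fam (Mat n)) (w : ℕ → M.X → ℝ) (u : M.X → ℝ) (O : Set M.X) (C : ℝ) :
    Prop where
  c0 : 0 ≤ C
  sm : ∀ j, M.Sm (w j)
  anti : ∀ j x, w (j + 1) x ≤ w j x
  itg : ∀ j, ∫ x, Real.exp (-w j x) ∂M.mu H ≤ C
  cur : ∀ j, M.All fun e z => (B e z + M.hs (w (j + 1)) e z +
    (C * (1 - Real.exp (w (j + 1) (e.symm z) - w j (e.symm z)))) • H e z).PosSemidef
  op : IsOpen O
  su : M.All fun e z => e.symm z ∈ O → ContDiffAt ℝ ∞ (u ∘ e.symm) z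
  lim : ∀ e ∈ M.C, ∀ k, ∃ g : E n → ℝ, ∀ z ∈ e.target, e.symm z ∈ O → ContinuousAt g z ∧
    ∀ j, ‖dz k (M.lc (w j) e) z - dz k (M.lc u e) z‖ ≤ (1 / 2) ^ j * g z

/-- The fields: algebra. -/
def St_ALG : Prop := ∀ (n : ℕ) (M : Mf n) (H : M.Fam (Mat n)) (L : M.Co), M.Met H →
  (∀ W W', VeC M L W → VeC M L W' → VeC M L (W - W') ∧ VeC M L (W + W') ∧
    (ClV M H W → ClV M H W' → ClV M H (W - W'))) ∧
  (∀ s, M.SecC L s → VeC M L (du M H s) ∧ ClV M H (du M H s) ∧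
    (M.All fun e z => ∀ i, (H e z *ᵥ du M H s e z) i = dzb i (s e) z) ∧
    ∀ s', M.SecC L s' → M.All fun e z => du M H (s - s') e z = du M H s e z - du M H s' e z) ∧
  ∀ V, M.Kae H → HolV M V → ClV M H V

/-- The fields: scalars. -/
def St_SC : Prop := ∀ (n : ℕ) (M : Mf n) (H : M.Fam (Mat n)) (L : M.Co) (φ : M.Fam ℝ)
  (W W' : M.Fam (E n)), M.Met H → M.WtC L φ → VeC M L W → VeC M L W' →
  M.Rep (vp M H φ W W') (fun e z =>
    (star (W' e z) ⬝ᵥ H e z *ᵥ W e z) * (Real.exp (-φ e z) : ℝ)) ∧ Continuous (vp M H φ W W') ∧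
  (∀ T, M.Ten T → M.Rep (tv M T φ W) (fun e z => nq (T e z) (W e z) * Real.exp (-φ e z)) ∧
    Continuous (tv M T φ W)) ∧
  M.Rep (qv M φ W) (fun e z => (qL (W e) z).re * Real.exp (-φ e z)) ∧ Continuous (qv M φ W) ∧
  (∀ x, 0 ≤ tv M H φ W x ∧
    tv M H φ (W - W') x = tv M H φ W x - 2 * (vp M H φ W W' x).re + tv M H φ W' x) ∧
  ∀ (w : M.X → ℝ) (T : M.Fam (Mat n)) (s : M.Fam ℂ) (x : M.X),
    tv M T (aw M φ w) W x = tv M T φ W x * Real.exp (-w x) ∧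
    qv M (aw M φ w) W x = qv M φ W x * Real.exp (-w x) ∧
    M.nrC (aw M φ w) s x = M.nrC φ s x * Real.exp (-w x)

/-- The weighted divergence is a section and the adjoint of `du`. -/
def St_WDV : Prop := ∀ (n : ℕ) (M : Mf n) [M.Cpt] (H : M.Fam (Mat n)) (L : M.Co) (φ : M.Fam ℝ)
  (W : M.Fam (E n)), M.Met H → M.WtC L φ → VeC M L W → M.SecC L (wd M H φ W) ∧
  ∀ s, M.SecC L s →
    ∫ x, spC M φ (wd M H φ W) s x ∂M.mu H = -∫ x, vp M H φ W (du M H s) x ∂M.mu H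

/-- Almost minimal representatives. -/
def St_NEAR : Prop := ∀ (n : ℕ) (M : Mf n) [M.Cpt] (H : M.Fam (Mat n)) (L : M.Co) (φ : M.Fam ℝ)
  (W : M.Fam (E n)) (δ : ℝ), M.Kae H → M.WtC L φ → VeC M L W → 0 < δ → ∃ s, M.SecC L s ∧
  (∀ s', M.SecC L s' → ∫ x, tv M H φ (W - du M H s) x ∂M.mu H ≤
    ∫ x, tv M H φ (W - du M H s') x ∂M.mu H + δ) ∧
  ∫ x, M.nrC φ (wd M H φ (W - du M H s)) x ∂M.mu H ≤ δ

/-- The identity of Bochner, Kodaira and Hörmander for a field. -/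
def St_BOC : Prop := ∀ (n : ℕ) (M : Mf n) [M.Cpt] (H : M.Fam (Mat n)) (L : M.Co) (φ : M.Fam ℝ)
  (W : M.Fam (E n)), M.Met H → M.WtC L φ → VeC M L W →
  ∫ x, tv M (M.hw φ + M.ric H) φ W x ∂M.mu H + ∫ x, qv M φ W x ∂M.mu H =
    ∫ x, M.nrC φ (wd M H φ W) x ∂M.mu H

/-- The gradient term bounds the derivatives. -/
def St_QLO : Prop := ∀ (n : ℕ) (M : Mf n) (H : M.Fam (Mat n)), M.Kae H → ∀ e ∈ M.C,
  ∃ g : E n → ℝ, ∀ z ∈ e.target, ContinuousAt g z ∧ ∀ W : E n → E n, ContDiffAt ℝ ∞ W z →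
    (∀ i j, dzb i (fun w => (H e w *ᵥ W w) j) z = dzb j (fun w => (H e w *ᵥ W w) i) z) →
    0 ≤ (qL W z).re ∧ ∀ k l, ‖dzb l (fun w => W w k) z‖ ^ 2 ≤ g z * (qL W z).re

/-- The sequence of representatives. -/
def St_MON : Prop := ∀ (n : ℕ) (M : Mf n) [M.Cpt] (H B θ : M.Fam (Mat n)) (L : M.Co)
  (φ : M.Fam ℝ) (W : M.Fam (E n)) (w : ℕ → M.X → ℝ) (u : M.X → ℝ) (O : Set M.X) (C : ℝ),
  M.Kae H → M.WtC L φ → M.Form θ → M.Le 0 θ →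
  (M.All fun e z => M.hw φ e z + M.ric H e z = θ e z + B e z) → Ax M H B w u O C →
  VeC M L W → ClV M H W → ∃ (s : ℕ → M.Fam ℂ) (D : ℝ), (∀ j, M.SecC L (s j)) ∧
    (∀ j, ∫ x, tv M H φ (W - du M H (s j)) x ∂M.mu H ≤ D) ∧
    Tendsto (fun j => ∫ x, qv M φ (W - du M H (s j)) x ∂M.mu H) atTop (𝓝 0) ∧
    Tendsto (fun j => ∫ x, tv M θ φ (W - du M H (s j)) x ∂M.mu H) atTop (𝓝 0) ∧
    Tendsto (fun j => ∫ x, M.nrC φ (wd M H (aw M φ (w j)) (W - du M H (s j))) x ∂M.mu H)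
      atTop (𝓝 0)

/-- From global square means to local means. -/
def St_L21 : Prop := ∀ (n : ℕ) (M : Mf n) [M.Cpt] (H : M.Fam (Mat n)) (ι : Type)
  (p : ι → M.X → ℝ) (Q : ι → E n → ℂ) (g : E n → ℝ), M.Met H → ∀ e ∈ M.C,
  (∀ a, Continuous (p a) ∧ ∀ x, 0 ≤ p a x) →
  (∀ z ∈ e.target, ContinuousAt g z ∧ ∀ a, ‖Q a z‖ ^ 2 ≤ g z * p a (e.symm z)) →
  (∀ D : ℝ, (∀ a, ∫ x, p a x ∂M.mu H ≤ D) → Lo pB e.target Q) ∧
  ∀ l : Filter ι, Tendsto (fun a => ∫ x, p a x ∂M.mu H) l (𝓝 0) → Lo (pN l) e.target Q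

/-- Holomorphic limit of a family of fields. -/
def St_VLIM : Prop := ∀ (n : ℕ) (M : Mf n) [M.Cpt] (H : M.Fam (Mat n)) (L : M.Co) (ι : Type)
  (l : Ultrafilter ι) (W : ι → M.Fam (E n)), M.Met H → (∀ a, VeC M L (W a)) →
  (∀ e ∈ M.C, ∀ k, Lo pB e.target fun a z => W a e z k) →
  (∀ e ∈ M.C, ∀ k j, Lo (pN l) e.target fun a => dzb j fun z => W a e z k) →
  ∃ V, VeC M L V ∧ HolV M V ∧ ∀ e ∈ M.C, ∀ k, Lo (pN l) e.target fun a z => W a e z k - V e z k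

/-- The divergence of a limit. -/
def St_DIVL : Prop := ∀ (n : ℕ) (ι : Type) (l : Filter ι) [l.NeBot] (U : Set (E n))
  (W : ι → E n → E n) (V : E n → E n) (g : E n → ℂ), IsOpen U →
  (∀ a, ∀ z ∈ U, ContDiffAt ℝ ∞ (W a) z) → (∀ z ∈ U, ContDiffAt ℝ ∞ V z ∧ ContinuousAt g z) →
  (∀ k, Lo (pN l) U fun a z => W a z k - V z k) → (Lo (pN l) U fun a z => dv (W a) z - g z) →
  ∀ z ∈ U, dv V z = g z

/-- The range of `du` is closed. -/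
def St_CR : Prop := ∀ (n : ℕ) (M : Mf n) [M.Cpt] (H : M.Fam (Mat n)) (L : M.Co)
  (l : Ultrafilter ℕ) (W : M.Fam (E n)) (s : ℕ → M.Fam ℂ), M.Met H → VeC M L W → ClV M H W →
  (∀ a, M.SecC L (s a)) →
  (∀ e ∈ M.C, ∀ k, Lo (pN l) e.target fun a z => W e z k - du M H (s a) e z k) →
  ∃ t, M.SecC L t ∧ M.All fun e z => W e z = du M H t e z

/-- The decomposition for an abstract sequence of weights. -/
def St_CORE : Prop := ∀ (n : ℕ) (M : Mf n) [M.Cpt] (H B θ : M.Fam (Mat n)) (L : M.Co)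
  (φ : M.Fam ℝ) (W : M.Fam (E n)) (w : ℕ → M.X → ℝ) (u : M.X → ℝ) (O : Set M.X) (C : ℝ),
  M.Kae H → M.WtC L φ → M.Form θ → M.Le 0 θ →
  (M.All fun e z => M.hw φ e z + M.ric H e z = θ e z + B e z) → Ax M H B w u O C →
  VeC M L W → ClV M H W → ∃ s V, M.SecC L s ∧ VeC M L V ∧ HolV M V ∧ M.All fun e z =>
    W e z = du M H s e z + V e z ∧ θ e z *ᵥ V e z = 0 ∧
    (e.symm z ∈ O → wd M H (aw M φ u) V e z = 0)

/-- The regularized weights of a divisor. -/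
def St_APX : Prop := ∀ (n : ℕ) (M : Mf n) [M.Cpt] (H : M.Fam (Mat n)) (ι : Type) [Fintype ι]
  (Ls : ι → M.Co) (f : ι → M.Fam ℂ) (ψ : ι → M.Fam ℝ) (a : ι → ℝ) (D : ℝ), M.Met H →
  (∀ i, M.HSecC (Ls i) (f i) ∧ M.WtC (Ls i) (ψ i) ∧ 0 ≤ a i ∧ a i ≤ 1) →
  (∀ δ ∈ Ioc (0 : ℝ) 1, ∫ x, ∏ i, (M.nrC (ψ i) (f i) x + δ) ^ (-a i) ∂M.mu H ≤ D) →
  ∃ w C, Ax M H (fun e z => ∑ i, a i • M.hw (ψ i) e z) w
    (fun x => ∑ i, a i * Real.log (M.nrC (ψ i) (f i) x)) {x | ∀ i, M.nrC (ψ i) (f i) x ≠ 0} C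

/-- The decomposition. -/
def St_HD : Prop := ∀ (n : ℕ) (M : Mf n) [M.Cpt] (H θ : M.Fam (Mat n)) (L : M.Co) (φ : M.Fam ℝ)
  (ι : Type) [Fintype ι] (Ls : ι → M.Co) (f : ι → M.Fam ℂ) (ψ : ι → M.Fam ℝ) (a : ι → ℝ) (D : ℝ)
  (W : M.Fam (E n)), M.Kae H → M.WtC L φ → M.Form θ → M.Le 0 θ →
  (∀ i, M.HSecC (Ls i) (f i) ∧ M.WtC (Ls i) (ψ i) ∧ 0 ≤ a i ∧ a i ≤ 1) →
  (M.All fun e z => M.hw φ e z + M.ric H e z = θ e z + ∑ i, a i • M.hw (ψ i) e z) →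
  (∀ δ ∈ Ioc (0 : ℝ) 1, ∫ x, ∏ i, (M.nrC (ψ i) (f i) x + δ) ^ (-a i) ∂M.mu H ≤ D) →
  VeC M L W → ClV M H W → ∃ s V, M.SecC L s ∧ VeC M L V ∧ HolV M V ∧ M.All fun e z =>
    W e z = du M H s e z + V e z ∧ θ e z *ᵥ V e z = 0 ∧ ((∀ i, f i e z ≠ 0) →
      wd M H (aw M φ fun x => ∑ i, a i * Real.log (M.nrC (ψ i) (f i) x)) V e z = 0)

theorem hd_of (h1 : St_CORE) (h2 : St_APX) : St_HD := by
  intro n M _ H θ L φ ι _ Ls f ψ a D W hH hφ hθ h0 hf hc hi hW hcl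
  obtain ⟨w, C, hA⟩ := h2 n M H ι Ls f ψ a D hH.toMet hf hi
  obtain ⟨s, V, a1, a2, a3, a4⟩ := h1 n M H _ θ L φ W w _ _ C hH hφ hθ h0 hc hA hW hcl
  refine ⟨s, V, a1, a2, a3, fun e he z hz => ⟨(a4 e he z hz).1, (a4 e he z hz).2.1, fun h =>
    (a4 e he z hz).2.2 fun i => ?_⟩⟩
  rw [Mf.nrC_ne, (hf i).1.toSecC.ne_iff he (e.map_target hz), e.right_inv hz]
  exact h i

end Pool.Agent.Lib.EXH
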