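import Pool.Agent.Lib.EXH.Blue
import Pool.Agent.Lib.KP.B_SC5

/-! Project ex41, part HY: algebra and scalars of fields. -/

open scoped Classical Topology ContDiff ComplexOrder Matrix ENNReal
open Set MeasureTheory Complex Metric Filter

noncomputable section

namespace Pool.Agent.Lib.EXH

open Pool.Agent.Lib.SV (E)
open Pool.Agent.Lib.HS32 Pool.Agent.Lib.KP
open Pool.Agent.Lib.HS68 (dual wdv met_loc)
open Pool.Agent.Lib.HS.SIUK (dzb_hol)

variable {n : ℕ} {M : Mf n} {H : M.Fam (Mat n)} {L : M.Co} {φ : M.Fam ℝ} {W W' : M.Fam (E n)}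
  {s s' : M.Fam ℂ}

theorem VeC.sub (h : VeC M L W) (h' : VeC M L W') : VeC M L (W - W') :=
  ⟨fun e he z hz => (h.sm e he z hz).sub (h'.sm e he z hz), fun e he e' he' x hx hx' => by
    simp only [Pi.sub_apply, Matrix.mulVec_sub, h.cmp e he e' he' x hx hx',
      h'.cmp e he e' he' x hx hx', smul_sub]⟩

theorem VeC.add (h : VeC M L W) (h' : VeC M L W') : VeC M L (W + W') :=
  ⟨fun e he z hz => (h.sm e he z hz).add (h'.sm e he z hz), fun e he e' he' x hx hx' => by
    simp only [Pi.add_apply, Matrix.mulVec_add, h.cmp e he e' he' x hx hx',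
      h'.cmp e he e' he' x hx hx', smul_add]⟩

theorem VeC.smk (h : VeC M L W) (k : Fin n) :
    M.All fun e z => ContDiffAt ℝ ∞ (fun w => W e w k) z :=
  fun e he z hz => contDiffAt_pi.1 (h.sm e he z hz) k

theorem vec_du (hH : M.Met H) (hs : M.SecC L s) : VeC M L (du M H s) :=
  ⟨fun e he z hz => (met_loc hH he hz).smooth_dual (hs.sm e he z hz), T60.dualC_cmp hH hs⟩

theorem mul_du (hH : M.Met H) (s : M.Fam ℂ) :
    M.All fun e z => ∀ i, (H e z *ᵥ du M H s e z) i = dzb i (s e) z := fun e he z hz i => by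
  simp only [du, dual]
  rw [Matrix.mulVec_mulVec, Matrix.mul_nonsing_inv _ (hH.det_ne e he z hz).isUnit,
    Matrix.one_mulVec]

theorem ClV.sub (hH : M.Met H) (h : VeC M L W) (h' : VeC M L W') (c : ClV M H W)
    (c' : ClV M H W') : ClV M H (W - W') := fun e he z hz i j => by
  have d := fun k => cd_diff (contDiffAt_pi.1 ((hH.sm e he z hz).mulVec (h.sm e he z hz)) k)
  have d' := fun k => cd_diff (contDiffAt_pi.1 ((hH.sm e he z hz).mulVec (h'.sm e he z hz)) k)
  simp only [Pi.sub_apply, Matrix.mulVec_sub]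
  rw [dzb_sub (d j) (d' j), dzb_sub (d i) (d' i), c e he z hz i j, c' e he z hz i j]

theorem clv_du (hH : M.Met H) (hs : M.SecC L s) : ClV M H (du M H s) := fun e he z hz i j => by
  have e1 := fun k => dzb_congr (j := k) (((mul_du hH s).ev he hz).mono fun w hw => hw j)
  have e2 := fun k => dzb_congr (j := k) (((mul_du hH s).ev he hz).mono fun w hw => hw i)
  rw [e1, e2, dzb_dzb (hs.sm e he z hz)]

theorem du_sub (hs : M.SecC L s) (hs' : M.SecC L s') :
    M.All fun e z => du M H (s - s') e z = du M H s e z - du M H s' e z := fun e he z hz => by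
  simp only [du, dual]
  rw [← Matrix.mulVec_sub]
  exact congrArg _ (funext fun i =>
    dzb_sub (cd_diff (hs.sm e he z hz)) (cd_diff (hs'.sm e he z hz)))

theorem HolV.clv (hH : M.Kae H) (h : HolV M W) : ClV M H W := fun e he z hz i j => by
  have d := fun k => (h e he z hz k).self_of_nhds
  have s := (hH.sm e he z hz).diff
  have e1 : ∀ a b, dzb a (fun w => (H e w *ᵥ W e w) b) z =
      ∑ k, star (dz a (fun w => H e w k b) z) * W e z k := fun a b => by
    simp only [Matrix.mulVec, dotProduct]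
    rw [dzb_sum fun k _ => (s b k).fun_mul ((d k).restrictScalars ℝ)]
    refine Finset.sum_congr rfl fun k _ => ?_
    rw [dzb_mul (s b k) ((d k).restrictScalars ℝ), dzb_hol (d k), mul_zero, add_zero,
      ← dzb_star (s k b), dzb_congr ((hH.herm.ev he hz).mono fun w hw => hw.apply b k)]
  rw [e1, e1]
  exact Finset.sum_congr rfl fun k _ => by
    rw [show dz i (fun w => H e w k j) z = dz j (fun w => H e w k i) z from hH.cl e he z hz k j i]

theorem st_ALG : St_ALG := fun _ _ _ _ hH =>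
  ⟨fun _ _ h h' => ⟨h.sub h', h.add h', ClV.sub hH h h'⟩,
    fun s hs => ⟨vec_du hH hs, clv_du hH hs, mul_du hH s, fun _ hs' => du_sub hs hs'⟩,
    fun _ hK h => h.clv hK⟩

/-- The derivatives of a field in two charts. -/
theorem VeC.dd (h : VeC M L W) : M.Ov fun e e' x => ∀ k l,
    ∑ a, M.J e e' x k a * dzb l (fun y => W e' y a) (e' x) =
      L.c e e' x * ∑ b, dzb b (fun y => W e y k) (e x) * star (M.J e e' x b l) := by
  intro e he e' he' x hx hx' k l
  obtain ⟨hN, hJ, -, hev, -⟩ := (mTR n M).2.1 e he e' he' x hx hx'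
  have hψ : (e ∘ e'.symm) (e' x) = e x := by simp [e'.left_inv hx']
  obtain ⟨c1, c2, -, c4, -, -, -, -, -, c10, -⟩ := mCHN n _ _ hN
  have s1 := h.sm e he _ (e.map_source hx)
  have s2 := h.sm e' he' _ (e'.map_source hx')
  have d1 : DifferentiableAt ℝ (fun y => W e y k) ((e ∘ e'.symm) (e' x)) := by
    rw [hψ]
    exact cd_diff (contDiffAt_pi.1 s1 k)
  have d2 : DifferentiableAt ℂ (fun y => L.c e e' (e'.symm y)) (e' x) :=
    (L.hol e he e' he' x hx hx').self_of_nhds
  have heq : (fun y => ∑ a, jm (e ∘ e'.symm) y k a * W e' y a) =ᶠ[𝓝 (e' x)]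
      fun y => L.c e e' (e'.symm y) * ((fun y => W e y k) ∘ (e ∘ e'.symm)) y := by
    filter_upwards [hev] with y hy
    have := congrFun (h.cmp e he e' he' _ hy.2.1 hy.2.2.1) k
    rw [hy.2.2.2.2.2.1, hy.2.2.2.2.2.2] at this
    exact this
  have h := dzb_congr (j := l) heq
  rw [dzb_mul (d2.restrictScalars ℝ) (d1.comp _ (cd_diff c1)), dzb_hol d2, (c10 _ d1 l).2, hψ,
    zero_mul, zero_add, e'.left_inv hx',
    dzb_sum fun a _ => (c2.diff k a).fun_mul (cd_diff (contDiffAt_pi.1 s2 a))] at h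
  refine Eq.trans (Finset.sum_congr rfl fun a _ => ?_) h
  rw [dzb_mul (c2.diff k a) (cd_diff (contDiffAt_pi.1 s2 a)),
    show dzb l (fun y => jm (e ∘ e'.symm) y k a) (e' x) = 0 from congrFun (congrFun (c4 l) k) a,
    zero_mul, zero_add]
  rfl

theorem ql_alg {J T T' : Mat n} {c : ℂ} (hJ : J.det ≠ 0) (h : J * T' = c • (T * J.map star)) :
    ∑ k, ∑ l, T' k l * star (T' l k) = star c * c * ∑ k, ∑ l, T k l * star (T l k) := by
  have t : ∀ A : Mat n, ∑ k, ∑ l, A k l * star (A l k) = (A * A.map star).trace := fun A => rfl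
  have h1 : J.map star * T'.map star = star c • (T.map star * J) := by
    ext i j
    have := congrArg star (congrFun (congrFun h i) j)
    simpa only [Matrix.mul_apply, Matrix.smul_apply, Matrix.map_apply, smul_eq_mul, star_sum,
      star_mul', star_star] using this
  have h2 : T' = c • (J⁻¹ * T * J.map star) := by
    rw [Matrix.mul_assoc, ← Matrix.mul_smul, ← h, ← Matrix.mul_assoc,
      Matrix.nonsing_inv_mul _ hJ.isUnit, Matrix.one_mul]
  rw [t, t]
  nth_rewrite 1 [h2]
  rw [Matrix.smul_mul, Matrix.mul_assoc, h1, Matrix.mul_smul, Matrix.trace_smul, Matrix.trace_smul,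
    Matrix.mul_assoc, Matrix.trace_mul_comm, Matrix.mul_assoc, Matrix.mul_assoc,
    Matrix.mul_nonsing_inv _ hJ.isUnit, Matrix.mul_one, smul_eq_mul, smul_eq_mul]
  ring

theorem VeC.form (h : VeC M L W) (h' : VeC M L W') (hφ : M.WtC L φ) {T : M.Fam (Mat n)}
    (hT : M.Ten T) : M.Rep (vp M T φ W W') (fun e z =>
      (star (W' e z) ⬝ᵥ T e z *ᵥ W e z) * (Real.exp (-φ e z) : ℝ)) ∧ Continuous (vp M T φ W W') :=
  T32.rep hφ (N := fun e z => star (W' e z) ⬝ᵥ T e z *ᵥ W e z) (fun e he e' he' x hx hx' => by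
    beta_reduce
    rw [hT.cmp e he e' he' x hx hx', ← Matrix.mulVec_mulVec, ← Matrix.mulVec_mulVec,
      Matrix.dotProduct_mulVec, ← Matrix.star_mulVec, h.cmp e he e' he' x hx hx',
      h'.cmp e he e' he' x hx hx', star_smul, smul_dotProduct, Matrix.mulVec_smul,
      dotProduct_smul, smul_eq_mul, smul_eq_mul, mul_assoc])
    fun e he z hz => VF72.cd_dot (h'.sm e he z hz) ((hT.sm e he z hz).mulVec (h.sm e he z hz))

theorem tv_eq (T : M.Fam (Mat n)) (x : M.X) : tv M T φ W x = (vp M T φ W W x).re :=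
  (re_mul_ofReal _ _).symm

theorem cd_qL {V : E n → E n} {z : E n} (h : ContDiffAt ℝ ∞ V z) : ContDiffAt ℝ ∞ (qL V) z :=
  ContDiffAt.sum fun k _ => ContDiffAt.sum fun l _ =>
    (cd_dzb (contDiffAt_pi.1 h k) l).mul (cd_star (cd_dzb (contDiffAt_pi.1 h l) k))

theorem ev_aw (w : M.X → ℝ) (x : M.X) :
    Real.exp (-M.ev (aw M φ w) x) = Real.exp (-M.ev φ x) * Real.exp (-w x) := by
  rw [← Real.exp_add, ← neg_add]
  exact congrArg (fun t => Real.exp (-(M.ev φ x + w t))) (Mf.ch_symm x)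

theorem st_SC : St_SC := by
  intro n M H L φ W W' hH hφ h h'
  have q := T32.rep hφ (N := fun e => qL (W e)) (fun e he e' he' x hx hx' =>
    ql_alg (J := M.J e e' x) (T := Matrix.of fun k l => dzb l (fun y => W e y k) (e x))
      (T' := Matrix.of fun k l => dzb l (fun y => W e' y k) (e' x))
      ((mTR n M).2.1 e he e' he' x hx hx').2.1
      (Matrix.ext fun k l => h.dd e he e' he' x hx hx' k l)) fun e he z hz => cd_qL (h.sm e he z hz)
  have q1 : qv M φ W = fun x =>
      (M.ev (fun e z => qL (W e) z * (Real.exp (-φ e z) : ℝ)) x).re :=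
    funext fun x => (re_mul_ofReal _ _).symm
  refine ⟨(h.form h' hφ hH.toTen).1, (h.form h' hφ hH.toTen).2, fun T hT => ⟨fun e he z hz => ?_,
    ?_⟩, fun e he z hz => ?_, ?_, fun x => ⟨mul_nonneg (Complex.le_def.1
      ((hH.ev_pos x).posSemidef.dotProduct_mulVec_nonneg _)).1 (Real.exp_pos _).le, ?_⟩,
    fun w T s x => ⟨?_, ?_, ?_⟩⟩
  · beta_reduce
    rw [tv_eq, (h.form h hφ hT).1 e he z hz]
    exact re_mul_ofReal _ _
  · rw [show tv M T φ W = _ from funext (tv_eq T)]
    exact continuous_re.comp (h.form h hφ hT).2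
  · rw [q1]
    beta_reduce
    rw [q.1 e he z hz]
    exact re_mul_ofReal _ _
  · rw [q1]
    exact continuous_re.comp q.2
  · have e1 : (star (M.ev W x) ⬝ᵥ M.ev H x *ᵥ M.ev W' x).re =
        (star (M.ev W' x) ⬝ᵥ M.ev H x *ᵥ M.ev W x).re := by
      rw [Matrix.dotProduct_mulVec, ← (hH.ev_pos x).1.eq, ← Matrix.star_mulVec,
        (hH.ev_pos x).1.eq, Matrix.star_dotProduct]
      rfl
    rw [tv, tv, tv, vp, re_mul_ofReal, show M.ev (W - W') x = M.ev W x - M.ev W' x from rfl]
    simp only [nq, star_sub, sub_dotProduct, Matrix.mulVec_sub, dotProduct_sub, sub_re, e1]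
    ring
  · rw [tv, tv, ev_aw, mul_assoc]
  · rw [qv, qv, ev_aw, mul_assoc]
  · rw [Mf.nrC, Mf.nrC, ev_aw, mul_assoc]

end Pool.Agent.Lib.EXH
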