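import Pool.Agent.Lib.EXH.Blue2

/-! Project ex41, part HY: the decomposition for an abstract sequence of weights. -/

open scoped Classical Topology ContDiff ComplexOrder Matrix ENNReal
open Set MeasureTheory Complex Metric Filter

noncomputable section

namespace Pool.Agent.Lib.EXH

open Pool.Agent.Lib.SV (E)
open Pool.Agent.Lib.HS32 Pool.Agent.Lib.KP Pool.Agent.Lib.VF72
open Pool.Agent.Lib.HS68 (dual wdv)
open Pool.Agent.Lib.KP.T60 (phC phC_sm)

namespace CORE

variable {n : ℕ}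

theorem cs {A : Mat n} (hA : A.PosSemidef) (a b : E n) :
    ‖star a ⬝ᵥ A *ᵥ b‖ ^ 2 ≤ nq A a * nq A b := by
  obtain ⟨W, rfl⟩ := Mf.psd_factor hA
  have h : ∀ a b : E n, star a ⬝ᵥ (Wᴴ * W) *ᵥ b =
      inner ℂ (WithLp.toLp 2 (W *ᵥ a)) (WithLp.toLp 2 (W *ᵥ b)) := fun a b => by
    rw [← Matrix.mulVec_mulVec, Matrix.dotProduct_mulVec, ← Matrix.star_mulVec,
      EuclideanSpace.inner_toLp_toLp, dotProduct_comm]
  rw [nq, nq, h, h, h, inner_self_eq_norm_sq_to_K, inner_self_eq_norm_sq_to_K]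
  norm_cast
  exact (pow_le_pow_left₀ (norm_nonneg _) (norm_inner_le_norm _ _) 2).trans_eq (mul_pow _ _ _)

theorem row {A : Mat n} (hA : A.PosSemidef) (v : E n) (i : Fin n) :
    ‖(A *ᵥ v) i‖ ^ 2 ≤ (A i i).re * nq A v := by
  have := cs hA (Pi.single i 1) v
  simpa [nq, Pi.star_single] using this

theorem coord {A : Mat n} (hA : A.PosDef) (v : E n) (i : Fin n) :
    ‖v i‖ ^ 2 ≤ (A⁻¹ i i).re * nq A v := by
  have h := row hA.inv.posSemidef (A *ᵥ v) i
  have h0 := isUnit_iff_ne_zero.2 (Mf.pd_det_ne hA)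
  rwa [nq, Matrix.mulVec_mulVec, Matrix.nonsing_inv_mul _ h0, Matrix.one_mulVec, Matrix.star_mulVec,
    hA.isHermitian.eq, ← Matrix.dotProduct_mulVec, ← nq] at h

theorem resc {a b c x : ℝ} (h : a ≤ b * c) : a ≤ b * Real.exp x * (c * Real.exp (-x)) := by
  rw [mul_mul_mul_comm, ← Real.exp_add, add_neg_cancel, Real.exp_zero, mul_one]
  exact h

end CORE

open CORE

theorem bCORE (hA : St_ALG) (hS : St_SC) (hD : St_WDV) (hM : St_MON) (hL : St_L21) (hQ : St_QLO)
    (hV : St_VLIM) (hI : St_DIVL) (hC : St_CRK) : St_CORE := by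
  intro n M _ H B θ L φ W w u O C hH hφ hθ h0 hc hx hW hcl
  have hm := hH.toMet
  obtain ⟨s, D, hs, b1, b2, b3, b4⟩ := hM n M H B θ L φ W w u O C hH hφ hθ h0 hc hx hW hcl
  obtain ⟨a1, a2, -⟩ := hA n M H L hm
  set X : ℕ → M.Fam (E n) := fun j => W - du M H (s j) with hX
  have x1 : ∀ j, VeC M L (X j) := fun j => (a1 _ _ hW (a2 _ (hs j)).1).1
  have x2 : ∀ j, ClV M H (X j) := fun j => (a1 _ _ hW (a2 _ (hs j)).1).2.2 hcl (a2 _ (hs j)).2.1
  have sc := fun j => hS n M H L φ (X j) (X j) hm hφ (x1 j) (x1 j)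
  have xc : ∀ e ∈ M.C, ∀ k, Ct e.target fun a z => X a e z k := fun e he k a z hz =>
    (contDiffAt_pi.1 ((x1 a).sm e he z hz) k).continuousAt
  have ec : ∀ e ∈ M.C, ∀ z ∈ e.target, ContinuousAt (fun z => Real.exp (φ e z)) z :=
    fun e he z hz => (hφ.sm e he z hz).continuousAt.rexp
  have p0 : M.All fun e z => (θ e z).PosSemidef := fun e he z hz => by simpa using h0 e he z hz
  have l1 : ∀ e ∈ M.C, ∀ k, Lo pB e.target fun a z => X a e z k := fun e he k =>
    (hL n M H ℕ (fun a => tv M H φ (X a)) _ (fun z => ((H e z)⁻¹ k k).re * Real.exp (φ e z)) hm e he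
      (fun a => ⟨((sc a).2.2.1 H hm.toTen).2, fun x => ((sc a).2.2.2.2.2.1 x).1⟩) fun z hz =>
        ⟨(cd_re (((hm.sm e he z hz).inv (hm.det_ne e he z hz)) k k)).continuousAt.mul
          (ec e he z hz), fun a => by
          rw [((sc a).2.2.1 H hm.toTen).1 e he z hz]
          exact resc (coord (hm.pos e he z hz) _ k)⟩).1 D b1
  let l : Ultrafilter ℕ := hyperfilter ℕ
  have hl : (l : Filter ℕ) ≤ atTop := Nat.hyperfilter_le_atTop
  have l2 : ∀ e ∈ M.C, ∀ k j, Lo (pN l) e.target fun a => dzb j fun z => X a e z k :=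
    fun e he k j => by
    obtain ⟨g, hg⟩ := hQ n M H hH e he
    refine (hL n M H ℕ (fun a => qv M φ (X a)) _ (fun z => g z * Real.exp (φ e z)) hm e he
      (fun a => ⟨(sc a).2.2.2.2.1, fun x => ?_⟩) fun z hz =>
        ⟨(hg z hz).1.mul (ec e he z hz), fun a => ?_⟩).2 l (b2.mono_left hl)
    · obtain ⟨g', hg'⟩ := hQ n M H hH _ (Mf.ch_mem x)
      exact mul_nonneg ((hg' _ (Mf.ch_tgt x)).2 _ ((x1 a).sm _ (Mf.ch_mem x) _ (Mf.ch_tgt x))
        (x2 a _ (Mf.ch_mem x) _ (Mf.ch_tgt x))).1 (Real.exp_pos _).le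
    · rw [(sc a).2.2.2.1 e he z hz]
      exact resc (((hg z hz).2 _ ((x1 a).sm e he z hz) (x2 a e he z hz)).2 k j)
  obtain ⟨V, v1, v2, v3⟩ := hV n M H L ℕ l X hm x1 l1 l2
  have vs : ∀ e ∈ M.C, ∀ z ∈ e.target, ∀ k, ContinuousAt (fun z => V e z k) z :=
    fun e he z hz k => (contDiffAt_pi.1 (v1.sm e he z hz) k).continuousAt
  obtain ⟨t, t1, t2⟩ := hC n M H L l (W - V) s hH (a1 _ _ hW v1).1 hs
    fun e he k => (v3 e he k).le (idN _) fun a z _ =>
      le_of_eq (congrArg _ (by simp only [hX, Pi.sub_apply]; ring))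
  refine ⟨t, V, t1, v1, v2, fun e he z hz => ⟨?_, funext fun i => ?_, fun hO => ?_⟩⟩
  · rw [← t2 e he z hz]; simp
  · have tc : ∀ k, ∀ z ∈ e.target, ContinuousAt (fun z => θ e z i k) z := fun k z hz =>
      (hθ.sm e he z hz i k).continuousAt
    have l3 := (hL n M H ℕ (fun a => tv M θ φ (X a)) (fun a z => (θ e z *ᵥ X a e z) i)
      (fun z => (θ e z i i).re * Real.exp (φ e z)) hm e he
      (fun a => ⟨((sc a).2.2.1 θ hθ.toTen).2, fun x => mul_nonneg
        (Complex.nonneg_iff.1 ((Mf.AllOn.ch p0 x).dotProduct_mulVec_nonneg _)).1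
        (Real.exp_pos _).le⟩) fun z hz =>
        ⟨(cd_re (hθ.sm e he z hz i i)).continuousAt.mul (ec e he z hz), fun a => by
          rw [((sc a).2.2.1 θ hθ.toTen).1 e he z hz]
          exact resc (row (p0 e he z hz) _ i)⟩).2 l (b3.mono_left hl)
    have l4 := Lo.sum (idN l) Finset.univ (fun k => (v3 e he k).mul (idN _) (tc k))
      fun k a z hz => ((xc e he k a z hz).sub (vs e he z hz k)).mul (tc k z hz)
    refine uniq (l := l) (Q := fun a z => (θ e z *ᵥ X a e z) i) (P := fun z => (θ e z *ᵥ V e z) i)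
      (P' := fun _ => 0) e.open_target (fun a z hz => (contDiffAt_pi.1 ((hθ.sm e he z hz).mulVec
        ((x1 a).sm e he z hz)) i).continuousAt) (fun z hz => (contDiffAt_pi.1
        ((hθ.sm e he z hz).mulVec (v1.sm e he z hz)) i).continuousAt)
      (fun _ _ => continuousAt_const) (l4.le (idN _) fun a z _ => le_of_eq (congrArg _ ?_))
      (l3.le (idN _) fun a z _ => by rw [sub_zero]) z hz
    simp only [Matrix.mulVec, dotProduct, ← Finset.sum_sub_distrib, Pi.mul_apply, Pi.sub_apply]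
    exact Finset.sum_congr rfl fun k _ => by ring
  · set U : Set (E n) := e.target ∩ e.symm ⁻¹' O with hU
    have hUo : IsOpen U := e.symm.isOpen_inter_preimage hx.op
    have hs1 : U ⊆ e.target := inter_subset_left
    have ps : ∀ z ∈ e.target, ContDiffAt ℝ ∞ (fun y => (phC M H φ e y : ℂ)) z := fun z hz =>
      cd_ofReal (phC_sm hm hφ he hz)
    have us : ∀ z ∈ U, ContDiffAt ℝ ∞ (M.lc u e) z := fun z hz => cd_ofReal (hx.su e he z hz.1 hz.2)
    have spl : ∀ (f : M.X → ℝ), ∀ z ∈ e.target, ContDiffAt ℝ ∞ (M.lc f e) z → ∀ k,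
        dz k (fun y => (phC M H (aw M φ f) e y : ℂ)) z =
          dz k (fun y => (phC M H φ e y : ℂ)) z + dz k (M.lc f e) z := fun f z hz hf k => by
      rw [← dz_add (cd_diff (ps z hz)) (cd_diff hf)]
      refine congrArg (fun F => dz k F z) (funext fun y => ?_)
      simp only [phC, aw, Mf.lc, Pi.add_apply]
      push_cast
      ring
    let c : Fin n → E n → ℂ := fun k z => dz k (fun y => (phC M H φ e y : ℂ)) z + dz k (M.lc u e) z
    have cc : ∀ k, ∀ z ∈ U, ContinuousAt (c k) z := fun k z hz =>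
      ((cd_dz (ps z hz.1) k).add (cd_dz (us z hz) k)).continuousAt
    have ws := fun a => (hD n M H L (aw M φ (w a)) (X a) hm (hφ.addF (hx.sm a)).1 (x1 a)).1
    have l5 := (hL n M H ℕ (fun a => M.nrC φ (wd M H (aw M φ (w a)) (X a)))
      (fun a z => wd M H (aw M φ (w a)) (X a) e z) (fun z => 1 * Real.exp (φ e z)) hm e he
      (fun a => ⟨(hφ.nr_sm (ws a)).continuous, Mf.nrC_nonneg _ _⟩) fun z hz =>
        ⟨(ec e he z hz).const_mul 1, fun a => by
          rw [hφ.nr_rep (ws a) e he z hz]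
          exact resc (by rw [one_mul, normSq_eq_norm_sq])⟩).2 l (b4.mono_left hl)
    choose g hg using hx.lim e he
    have l6 : ∀ k, Lo (pN l) U fun a z =>
        (dz k (M.lc (w a) e) z - dz k (M.lc u e) z) * X a e z k := fun k =>
      nu_small (κ := fun a => (1 / 2) ^ a)
        ((tendsto_pow_atTop_nhds_zero_of_lt_one (by norm_num) (by norm_num)).mono_left hl)
        (((l1 e he k).sub hs1).mul idB (f := fun z => (g k z : ℂ)) fun z hz =>
          continuous_ofReal.continuousAt.comp (hg k z hz.1 hz.2).1) fun a z hz => by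
        rw [norm_mul, norm_mul, mul_comm ‖X a e z k‖, ← mul_assoc]
        refine mul_le_mul_of_nonneg_right (((hg k z hz.1 hz.2).2 a).trans ?_) (norm_nonneg _)
        rw [norm_real]
        exact mul_le_mul_of_nonneg_left (le_abs_self _) (by positivity)
    have c6 : ∀ k, Ct U fun a z => (dz k (M.lc (w a) e) z - dz k (M.lc u e) z) * X a e z k :=
      fun k a z hz => ((cd_dz ((hx.sm a).lc e he z hz.1) k).sub
        (cd_dz (us z hz) k)).continuousAt.mul (xc e he k a z hz.1)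
    have l7 := Lo.sum (idN l) Finset.univ (fun k => ((v3 e he k).sub hs1).mul (idN _) (cc k))
      fun k a z hz => ((xc e he k a z hz.1).sub (vs e he z hz.1 k)).mul (cc k z hz)
    have l8 := (Lo.sum (idN l) Finset.univ l6 c6).add (idN _) l7
      (fun a z hz => tendsto_finsetSum _ fun k _ => c6 k a z hz) fun a z _ => norm_add_le _ _
    have l9 := hI n ℕ l U (fun a => X a e) (V e) (fun z => ∑ k, c k z * V e z k) hUo
      (fun a z hz => (x1 a).sm e he z hz.1) (fun z hz => ⟨v1.sm e he z hz.1,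
        tendsto_finsetSum _ fun k _ => (cc k z hz).mul (vs e he z hz.1 k)⟩)
      (fun k => (v3 e he k).sub hs1) ((l5.sub hs1).add (idN _) l8
        (fun a z hz => ((ws a).sm e he z hz.1).continuousAt) fun a z hz =>
          le_trans (le_of_eq (congrArg _ ?_)) (norm_add_le _ _)) z ⟨hz, hO⟩
    · simp only [wd, wdv, spl u z hz (us z ⟨hz, hO⟩), Finset.sum_sub_distrib]
      exact sub_eq_zero.2 l9
    · simp only [wd, wdv, dv, spl (w a) z hz.1 ((hx.sm a).lc e he z hz.1), c,
        ← Finset.sum_sub_distrib, ← Finset.sum_add_distrib, Pi.mul_apply, Pi.sub_apply]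
      exact Finset.sum_congr rfl fun k _ => by ring

end Pool.Agent.Lib.EXH
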