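import Pool.Agent.Lib.KP.Kit
import Pool.Agent.Lib.EXA.B_MINT

/-! Project ex41, part HY: integrability of the weight of a divisor with normal crossings. -/

open scoped Classical Topology ContDiff ComplexOrder Matrix ENNReal
open Set MeasureTheory Complex Metric Filter

noncomputable section

namespace Pool.Agent.Lib.EXH

open Pool.Agent.Lib.SV (E)
open Pool.Agent.Lib.HS32

namespace ITG84

variable {n : ℕ} {ι : Type} [Fintype ι]

/-- The exponent of the coordinate `t`. -/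
def ex (j : ι → Option (Fin n)) (a : ι → ℝ) (t : Fin n) : ℝ :=
  ∑ i, if j i = some t then -2 * a i else 0

theorem ex_lt {j : ι → Option (Fin n)} {a : ι → ℝ} (ha : ∀ i, a i < 1)
    (hj : ∀ i i' t, j i = some t → j i' = some t → i = i') (t : Fin n) : -2 < ex j a t := by
  by_cases h : ∃ i, j i = some t
  · obtain ⟨i, hi⟩ := h
    rw [ex, Finset.sum_eq_single i (fun i' _ h' => if_neg fun h => h' (hj _ _ t h hi))
      (fun h => absurd (Finset.mem_univ i) h), if_pos hi]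
    linarith [ha i]
  · rw [ex, Finset.sum_eq_zero fun i _ => if_neg fun hi => h ⟨i, hi⟩]
    norm_num

theorem prod_eq (j : ι → Option (Fin n)) (a : ι → ℝ) {z : E n} (hz : ∀ t, z t ≠ 0) :
    ∏ i, normSq ((j i).elim 1 z) ^ (-a i) = ∏ t, ‖z t‖ ^ ex j a t := by
  have h1 : ∀ t, ‖z t‖ ^ ex j a t = ∏ i, ‖z t‖ ^ (if j i = some t then -2 * a i else 0) :=
    fun t => Real.rpow_sum_of_pos (norm_pos_iff.2 (hz t)) _ _
  simp only [h1]
  rw [Finset.prod_comm]
  refine Finset.prod_congr rfl fun i _ => ?_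
  cases h : j i with
  | none => simp
  | some s =>
    rw [Finset.prod_eq_single s (fun t _ ht => by
      rw [if_neg fun e => ht (Option.some.inj e).symm, Real.rpow_zero])
      (fun h => absurd (Finset.mem_univ s) h), if_pos rfl, Option.elim, normSq_eq_norm_sq,
      ← Real.rpow_two, ← Real.rpow_mul (norm_nonneg _)]
    congr 1
    ring

variable {M : Mf n} [M.Cpt] {H : M.Fam (Mat n)} {L : ι → M.Co} {f : ι → M.Fam ℂ}
  {ψ : ι → M.Fam ℝ} {a : ι → ℝ}

theorem loc (hH : M.Met H)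
    (hf : ∀ i, M.SecC (L i) (f i) ∧ M.WtC (L i) (ψ i) ∧ 0 ≤ a i ∧ a i < 1) {x : M.X} {e : M.Ch}
    (he : e ∈ M.C) (hx : x ∈ e.source) {j : ι → Option (Fin n)}
    (hj : ∀ i i' t, j i = some t → j i' = some t → i = i')
    (hu : ∀ i, ∃ u : E n → ℂ, ContinuousAt u (e x) ∧ u (e x) ≠ 0 ∧
      ∀ᶠ w in 𝓝 (e x), f i e w = u w * (j i).elim 1 w) :
    ∃ U ∈ 𝓝 x, ∃ C : ℝ≥0∞, C < ⊤ ∧ ∀ δ : ℝ, 0 < δ → ∫⁻ y in U,
      ENNReal.ofReal (∏ i, (M.nrC (ψ i) (f i) y + δ) ^ (-a i)) ∂M.mu H ≤ C := by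
  choose u u1 u2 u3 using hu
  have hz := e.map_source hx
  have c1 : ContinuousAt (fun z => H e z) (e x) :=
    continuousAt_pi.2 fun i => continuousAt_pi.2 fun j => (hH.sm e he _ hz i j).continuousAt
  have c2 : ContinuousAt (fun z => (H e z).det.re) (e x) :=
    (continuous_re.comp (continuous_id.matrix_det)).continuousAt.comp c1
  have c5 : ∀ i, ContinuousAt (fun z => (normSq (u i z) * Real.exp (-ψ i e z)) ^ (-a i)) (e x) :=
    fun i => ((continuous_normSq.continuousAt.comp (u1 i)).mul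
      ((hf i).2.1.sm e he _ hz).continuousAt.neg.rexp).rpow_const
        (Or.inl (mul_pos (normSq_pos.2 (u2 i)) (Real.exp_pos _)).ne')
  have c3 : ContinuousAt (fun z => (H e z).det.re *
      ∏ i, (normSq (u i z) * Real.exp (-ψ i e z)) ^ (-a i)) (e x) :=
    c2.mul (tendsto_finsetProd _ fun i _ => c5 i)
  obtain ⟨A, hA⟩ : ∃ A, A = (H e (e x)).det.re *
      ∏ i, (normSq (u i (e x)) * Real.exp (-ψ i e (e x))) ^ (-a i) + 1 := ⟨_, rfl⟩
  have c4 := c3.eventually (gt_mem_nhds (lt_add_one _))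
  rw [← hA] at c4
  have c6 : ∀ᶠ w in 𝓝 (e x), ∀ i, u i w ≠ 0 ∧ f i e w = u i w * (j i).elim 1 w :=
    eventually_all.2 fun i => ((u1 i).eventually_ne (u2 i)).and (u3 i)
  have c7 : ball (0 : E n) (‖e x‖ + 1) ∈ 𝓝 (e x) :=
    isOpen_ball.mem_nhds (mem_ball_zero_iff.2 (lt_add_one _))
  obtain ⟨B, hB, hBo, hxB⟩ := _root_.mem_nhds_iff.1
    (inter_mem (inter_mem (inter_mem c7 (e.open_target.mem_nhds hz)) c4) c6)
  have hBt : B ⊆ e.target := fun z hz => (hB hz).1.1.2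
  have hI := ((EXA.MINT.int_prod Finset.univ (ex j a) (fun t _ => ex_lt (fun i => (hf i).2.2.2)
    hj t) (‖e x‖ + 1) (by positivity)).mono_set fun z hz => (hB hz).1.1.1).const_mul A
  refine ⟨e.symm '' B, ?_, _, hI.lintegral_lt_top, fun δ hδ => ?_⟩
  · have := e.symm.image_mem_nhds hz (hBo.mem_nhds hxB)
    rwa [e.left_inv hx] at this
  rw [((mMU n M H hH).2.2.2.2.2.1 e he B hBo.measurableSet hBt).2.1]
  refine lintegral_mono_ae ((ae_restrict_iff' hBo.measurableSet).2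
    ((EXA.MINT.ae_off Finset.univ).mono fun z hz hzB => ?_))
  have hz' : ∀ t, z t ≠ 0 := fun t => hz t (Finset.mem_univ t)
  have d0 := (Mf.pd_det_re (hH.pos e he z (hBt hzB))).le
  have h0 : ∀ i, 0 < normSq ((j i).elim 1 z) := fun i => normSq_pos.2 (by
    cases j i with
    | none => exact one_ne_zero
    | some s => exact hz' s)
  have h1 : ∀ i, 0 < normSq (u i z) * Real.exp (-ψ i e z) := fun i =>
    mul_pos (normSq_pos.2 ((hB hzB).2 i).1) (Real.exp_pos _)
  have h2 : ∀ i, (M.nrC (ψ i) (f i) (e.symm z) + δ) ^ (-a i) ≤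
      (normSq (u i z) * Real.exp (-ψ i e z)) ^ (-a i) * normSq ((j i).elim 1 z) ^ (-a i) :=
    fun i => by
      have h3 := (hf i).2.1.nr_rep (hf i).1 e he z (hBt hzB)
      beta_reduce at h3
      rw [← Real.mul_rpow (h1 i).le (h0 i).le, h3, ((hB hzB).2 i).2, map_mul, mul_right_comm]
      exact Real.rpow_le_rpow_of_nonpos (mul_pos (h1 i) (h0 i)) (le_add_of_nonneg_right hδ.le)
        (neg_nonpos.2 (hf i).2.2.1)
  rw [← ENNReal.ofReal_mul d0]
  refine ENNReal.ofReal_le_ofReal ((mul_le_mul_of_nonneg_left (Finset.prod_le_prod (fun i _ =>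
    Real.rpow_nonneg (add_nonneg (Mf.nrC_nonneg _ _ _) hδ.le) _) fun i _ => h2 i) d0).trans ?_)
  rw [Finset.prod_mul_distrib, prod_eq j a hz', ← mul_assoc]
  exact mul_le_mul_of_nonneg_right (le_of_lt (hB hzB).1.2)
    (Finset.prod_nonneg fun _ _ => Real.rpow_nonneg (norm_nonneg _) _)

end ITG84

/-- The weight of a divisor with normal crossings and coefficients less than one is integrable. -/
theorem itg84 {n : ℕ} {ι : Type} [Fintype ι] {M : Mf n} [M.Cpt] {H : M.Fam (Mat n)}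
    {L : ι → M.Co} {f : ι → M.Fam ℂ} {ψ : ι → M.Fam ℝ} {a : ι → ℝ} (hH : M.Met H)
    (hf : ∀ i, M.SecC (L i) (f i) ∧ M.WtC (L i) (ψ i) ∧ 0 ≤ a i ∧ a i < 1)
    (hs : ∀ x, ∃ e ∈ M.C, x ∈ e.source ∧ ∃ j : ι → Option (Fin n),
      (∀ i i' t, j i = some t → j i' = some t → i = i') ∧
      ∀ i, ∃ u : E n → ℂ, ContinuousAt u (e x) ∧ u (e x) ≠ 0 ∧
        ∀ᶠ w in 𝓝 (e x), f i e w = u w * (j i).elim 1 w) :
    ∃ D : ℝ, ∀ δ : ℝ, 0 < δ → ∫ x, ∏ i, (M.nrC (ψ i) (f i) x + δ) ^ (-a i) ∂M.mu H ≤ D := by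
  choose e he hx j hj hu using hs
  choose U hU C hC hI using fun x => ITG84.loc hH hf (he x) (hx x) (hj x) (hu x)
  obtain ⟨t, -, ht⟩ := isCompact_univ.elim_nhds_subcover U fun x _ => hU x
  have hN : ∀ i, Continuous (M.nrC (ψ i) (f i)) := fun i => ((hf i).2.1.nr_sm (hf i).1).continuous
  refine ⟨(∑ x ∈ t, C x).toReal, fun δ hδ => ?_⟩
  have hp : ∀ i x, 0 < M.nrC (ψ i) (f i) x + δ := fun i x =>
    add_pos_of_nonneg_of_pos (Mf.nrC_nonneg _ _ _) hδ
  rw [integral_eq_lintegral_of_nonneg_ae (Eventually.of_forall fun x =>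
    Finset.prod_nonneg fun i _ => Real.rpow_nonneg (hp i x).le _)
    (continuous_finsetProd _ fun i _ => ((hN i).add continuous_const).rpow_const fun x =>
      Or.inl (hp i x).ne').aestronglyMeasurable]
  refine ENNReal.toReal_mono (ENNReal.sum_lt_top.2 fun x _ => hC x).ne ?_
  rw [← setLIntegral_univ]
  refine (lintegral_mono_set ht).trans ?_
  clear ht
  induction t using Finset.induction_on with
  | empty => simp
  | insert b s hb ih =>
    rw [Finset.set_biUnion_insert, Finset.sum_insert hb]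
    exact (lintegral_union_le _ _ _).trans (add_le_add (hI b δ hδ) ih)

end Pool.Agent.Lib.EXH
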