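import Pool.Agent.Lib.EXH.Blue
import Pool.Agent.Lib.HS.B_SLIM

/-! From global square means to local means. -/

open scoped Classical Topology ContDiff ComplexOrder Matrix ENNReal
open Set MeasureTheory Complex Metric Filter

noncomputable section

namespace Pool.Agent.Lib.EXH

open Pool.Agent.Lib.SV (E)
open Pool.Agent.Lib.HS32 Pool.Agent.Lib.KP
open Pool.Agent.Lib.VF72 (Lo pB pN)

theorem st_L21 : St_L21 := by
  intro n M _ H ι p Q g hH e he hp hg
  have key : ∀ K, IsCompact K → K ⊆ e.target → ∃ A : ℝ, 0 ≤ A ∧ ∀ ε, 0 < ε → ∀ a,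
      ∫⁻ z in K, ‖Q a z‖ₑ ≤
        ENNReal.ofReal ε * volume K + ENNReal.ofReal (A / ε * ∫ x, p a x ∂M.mu H) := by
    intro K hK hs
    obtain ⟨A, hA, hB⟩ := BBD.up hK (f := fun z => g z / (H e z).det.re) fun z hz =>
      (hg z (hs hz)).1.div (HS.BSLIM.det_cont hH he (hs hz)) (HS.BSLIM.det_pos hH he (hs hz)).ne'
    refine ⟨A, hA.le, fun ε hε a => HS.BSLIM.l1 mMU hH he hK hs (hp a).1 (hp a).2 hA.le
      (fun z hz => ((hg z (hs hz)).2 a).trans ?_) hε⟩
    have h1 := HS.BSLIM.det_pos hH he (hs hz)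
    rw [← mul_assoc]
    exact mul_le_mul_of_nonneg_right ((div_le_iff₀ h1).1 (hB z hz)) ((hp a).2 _)
  refine ⟨fun D hD K hK hs => ?_, fun l hl K hK hs => ?_⟩
  · obtain ⟨A, hA, h⟩ := key K hK hs
    refine ⟨ENNReal.ofReal 1 * volume K + ENNReal.ofReal (A / 1 * D), ENNReal.add_ne_top.2
      ⟨ENNReal.mul_ne_top ENNReal.ofReal_ne_top hK.measure_lt_top.ne, ENNReal.ofReal_ne_top⟩,
      fun a => (h 1 one_pos a).trans ?_⟩
    gcongr
    exact hD a
  · obtain ⟨A, -, h⟩ := key K hK hs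
    exact HS.BSLIM.small hK.measure_lt_top.ne hl h

end Pool.Agent.Lib.EXH
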