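import Pool.Agent.Lib.EXH.Blue

/-! Project ex41, part HY: the sequence of representatives. -/

open scoped Classical Topology ContDiff ComplexOrder Matrix ENNReal
open Set MeasureTheory Complex Metric Filter

noncomputable section

namespace Pool.Agent.Lib.EXH

open Pool.Agent.Lib.SV (E)
open Pool.Agent.Lib.HS32 Pool.Agent.Lib.KP

namespace MON39

theorem seq {a b : ℕ → ℝ} {K : ℝ} (hK : ∀ j, a j ≤ K) (hb : ∀ j, 0 ≤ b j)
    (h : ∀ j, a j ≤ a (j + 1) - b j + (1 / 2) ^ j) : Tendsto b atTop (𝓝 0) := by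
  set c : ℕ → ℝ := fun j => a j - 2 * (1 / 2) ^ j with hc
  have h1 : ∀ j, b j ≤ c (j + 1) - c j := fun j => by
    have := h j
    simp only [hc, pow_succ]
    linarith
  have h2 : Monotone c := monotone_nat_of_le_succ fun j => by linarith [h1 j, hb j]
  have h3 : BddAbove (range c) := ⟨K, by
    rintro _ ⟨j, rfl⟩
    have : (0 : ℝ) < (1 / 2) ^ j := by positivity
    simp only [hc]
    linarith [hK j]⟩
  have h4 := tendsto_atTop_ciSup h2 h3
  have h5 := ((tendsto_add_atTop_iff_nat 1).2 h4).sub h4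
  rw [sub_self] at h5
  exact squeeze_zero hb h1 h5

variable {n : ℕ} {M : Mf n} {H : M.Fam (Mat n)}

theorem up [M.Cpt] (hm : M.Met H) {p w : M.X → ℝ} {m : ℝ} (hp : Continuous p)
    (h0 : ∀ x, 0 ≤ p x) (hw : Continuous w) (hle : ∀ x, w x ≤ m) :
    ∫ x, p x ∂M.mu H ≤ Real.exp m * ∫ x, p x * Real.exp (-w x) ∂M.mu H := by
  obtain ⟨-, -, -, -, hi, -⟩ := mMU n M H hm
  rw [← integral_const_mul]
  refine integral_mono (hi _ _ hp) (hi _ _ (by fun_prop)) fun x => ?_
  have : 1 ≤ Real.exp m * Real.exp (-w x) := by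
    rw [← Real.exp_add]
    exact Real.one_le_exp (by linarith [hle x])
  have h1 := h0 x
  beta_reduce
  nlinarith

theorem nq_ge {T S P G : Mat n} {c : ℝ} (v : E n) (h : T = S + P) (hp : (P + c • G).PosSemidef) :
    nq S v - c * nq G v ≤ nq T v := by
  have h1 := (Complex.nonneg_iff.1 (hp.dotProduct_mulVec_nonneg v)).1
  simp only [nq, h, Matrix.add_mulVec, dotProduct_add, add_re, Matrix.smul_mulVec,
    dotProduct_smul, real_smul, re_ofReal_mul] at h1 ⊢
  linarith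

end MON39

open MON39

theorem st_MON39 (hA : St_ALG) (hS : St_SC) (hD : St_WDV) (hN : St_NEAR) (hB : St_BOC)
    (hQ : St_QLO) : St_MON := by
  intro n M _ H B θ L φ W w u O C hH hφ hθ h0 hc hx hW hcl
  have hm := hH.toMet
  obtain ⟨a1, a2, -⟩ := hA n M H L hm
  obtain ⟨-, -, -, -, hi, -⟩ := mMU n M H hm
  have wt : ∀ j, M.WtC L (aw M φ (w j)) := fun j => (hφ.addF (hx.sm j)).1
  have hδ : ∀ j : ℕ, (0 : ℝ) < (1 / 2) ^ j := fun j => by positivity
  choose s hs s1 s2 using fun j : ℕ => hN n M H L (aw M φ (w j)) W ((1 / 2) ^ j) hH (wt j) hW (hδ j)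
  set X : ℕ → M.Fam (E n) := fun j => W - du M H (s j) with hX
  have x1 : ∀ j, VeC M L (X j) := fun j => (a1 _ _ hW (a2 _ (hs j)).1).1
  have x2 : ∀ j, ClV M H (X j) := fun j => (a1 _ _ hW (a2 _ (hs j)).1).2.2 hcl (a2 _ (hs j)).2.1
  have sc := fun j => hS n M H L φ (X j) (X j) hm hφ (x1 j) (x1 j)
  have wc : ∀ j, Continuous (w j) := fun j => (hx.sm j).continuous
  obtain ⟨x0, hx0⟩ := (hx.sm 0).exists_max
  have wm : ∀ j x, w j x ≤ w 0 x0 := fun j x => by
    induction j with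
    | zero => exact hx0 x
    | succ j ih => exact (hx.anti j x).trans ih
  have pc : ∀ j, Continuous (tv M H φ (X j)) := fun j => ((sc j).2.2.1 H hm.toForm.toTen).2
  have p0 : ∀ j x, 0 ≤ tv M H φ (X j) x := fun j x => ((sc j).2.2.2.2.2.1 x).1
  have tc : ∀ j, Continuous (tv M θ φ (X j)) := fun j => ((sc j).2.2.1 θ hθ.toTen).2
  have t0 : ∀ j x, 0 ≤ tv M θ φ (X j) x := fun j x => mul_nonneg
    (Complex.nonneg_iff.1 ((show (M.ev θ x).PosSemidef by
      simpa [Mf.ev] using Mf.AllOn.ch h0 x).dotProduct_mulVec_nonneg _)).1 (Real.exp_pos _).le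
  have qc : ∀ j, Continuous (qv M φ (X j)) := fun j => (sc j).2.2.2.2.1
  have q0 : ∀ j x, 0 ≤ qv M φ (X j) x := fun j x => by
    obtain ⟨g', hg'⟩ := hQ n M H hH _ (Mf.ch_mem x)
    exact mul_nonneg ((hg' _ (Mf.ch_tgt x)).2 _ ((x1 j).sm _ (Mf.ch_mem x) _ (Mf.ch_tgt x))
      (x2 j _ (Mf.ch_mem x) _ (Mf.ch_tgt x))).1 (Real.exp_pos _).le
  have e1 : ∀ i j T x, tv M T (aw M φ (w i)) (X j) x = tv M T φ (X j) x * Real.exp (-w i x) :=
    fun i j T x => ((sc j).2.2.2.2.2.2 (w i) T 0 x).1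
  have e2 : ∀ i j x, qv M (aw M φ (w i)) (X j) x = qv M φ (X j) x * Real.exp (-w i x) :=
    fun i j x => ((sc j).2.2.2.2.2.2 (w i) H 0 x).2.1
  have e3 : ∀ i t x, M.nrC (aw M φ (w i)) t x = M.nrC φ t x * Real.exp (-w i x) :=
    fun i t x => ((sc 0).2.2.2.2.2.2 (w i) H t x).2.2
  have ip : ∀ i j, Integrable (fun x => tv M H φ (X j) x * Real.exp (-w i x)) (M.mu H) :=
    fun i j => hi _ _ ((pc j).mul (wc i).neg.rexp)
  have it : ∀ i j, Integrable (fun x => tv M θ φ (X j) x * Real.exp (-w i x)) (M.mu H) :=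
    fun i j => hi _ _ ((tc j).mul (wc i).neg.rexp)
  set A : ℕ → ℕ → ℝ := fun i j => ∫ x, tv M H φ (X j) x * Real.exp (-w i x) ∂M.mu H with hAd
  have m1 : ∀ i j, A i i ≤ A i j + (1 / 2) ^ i := fun i j => by
    have := s1 i (s j) (hs j)
    simp only [hAd, ← e1]
    exact this
  obtain ⟨y, -, hy⟩ := isCompact_univ.exists_isMaxOn univ_nonempty (pc 0).continuousOn
  have bd : ∀ j, A j j ≤ tv M H φ (X 0) y * C + 1 := fun j => by
    have h1 : A j 0 ≤ tv M H φ (X 0) y * ∫ x, Real.exp (-w j x) ∂M.mu H := by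
      rw [← integral_const_mul]
      exact integral_mono (ip j 0) (hi _ _ (continuous_const.mul (wc j).neg.rexp)) fun x =>
        mul_le_mul_of_nonneg_right (hy (mem_univ x)) (Real.exp_pos _).le
    have h2 := mul_le_mul_of_nonneg_left (hx.itg j) (p0 0 y)
    have h3 : ((1 : ℝ) / 2) ^ j ≤ 1 := pow_le_one₀ (by norm_num) (by norm_num)
    linarith [m1 j 0]
  have b0 : ∀ j, 0 ≤ A (j + 1) (j + 1) - A j (j + 1) := fun j =>
    sub_nonneg.2 (integral_mono (ip j (j + 1)) (ip (j + 1) (j + 1)) fun x =>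
      mul_le_mul_of_nonneg_left (Real.exp_le_exp.2 (neg_le_neg (hx.anti j x))) (p0 _ x))
  have bl : Tendsto (fun j => A (j + 1) (j + 1) - A j (j + 1)) atTop (𝓝 0) :=
    seq (a := fun j => A j j) bd b0 fun j => by linarith [m1 j (j + 1)]
  have dl : Tendsto (fun j : ℕ => ((1 : ℝ) / 2) ^ j) atTop (𝓝 0) :=
    tendsto_pow_atTop_nhds_zero_of_lt_one (by norm_num) (by norm_num)
  have key : ∀ j, ∫ x, tv M θ φ (X (j + 1)) x * Real.exp (-w (j + 1) x) ∂M.mu H +
      ∫ x, qv M φ (X (j + 1)) x * Real.exp (-w (j + 1) x) ∂M.mu H ≤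
      (1 / 2) ^ (j + 1) + C * (A (j + 1) (j + 1) - A j (j + 1)) := fun j => by
    have h1 := hB n M H L (aw M φ (w (j + 1))) (X (j + 1)) hm (wt _) (x1 _)
    have h2 := s2 (j + 1)
    have tn : M.Ten (M.hw (aw M φ (w (j + 1))) + M.ric H) :=
      (wt (j + 1)).clo.toTen.add ((mHES n M).2.2.2.2.2.2.2.2.1 H hm).toTen
    have h3 : ∫ x, (tv M θ φ (X (j + 1)) x * Real.exp (-w (j + 1) x) -
        C * (tv M H φ (X (j + 1)) x * Real.exp (-w (j + 1) x) -
          tv M H φ (X (j + 1)) x * Real.exp (-w j x))) ∂M.mu H ≤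
        ∫ x, tv M (M.hw (aw M φ (w (j + 1))) + M.ric H) (aw M φ (w (j + 1))) (X (j + 1)) x
          ∂M.mu H := by
      refine integral_mono ((it _ _).sub (((ip _ _).sub (ip _ _)).const_mul C))
        (hi _ _ ((hS n M H L _ _ _ hm (wt _) (x1 _) (x1 0)).2.2.1 _ tn).2) fun x => ?_
      have c1 := Mf.AllOn.ch (hx.cur j) x
      have c2 := Mf.AllOn.ch hc x
      have c3 := Mf.AllOn.ch (hφ.addF (hx.sm (j + 1))).2 x
      beta_reduce at c1 c2 c3 ⊢
      rw [Mf.ch_symm] at c1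
      have c4 : M.ev (M.hw (aw M φ (w (j + 1))) + M.ric H) x = M.ev θ x +
          (M.ev B x + M.ev (M.hs (w (j + 1))) x) := by
        simp only [Mf.ev, Pi.add_apply, aw]
        rw [c3, add_right_comm, c2, add_assoc]
      have c5 := nq_ge (M.ev (X (j + 1)) x) c4 c1
      have c6 : Real.exp (w (j + 1) x - w j x) * Real.exp (-w (j + 1) x) = Real.exp (-w j x) := by
        rw [← Real.exp_add]; congr 1; ring
      have c7 := mul_le_mul_of_nonneg_right c5
        (mul_pos (Real.exp_pos (-M.ev φ x)) (Real.exp_pos (-w (j + 1) x))).le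
      rw [e1]
      simp only [tv]
      rw [← c6]
      change _ - C * (nq (H (M.ch x) (M.ch x x)) _ * _ * _ - nq (H (M.ch x) (M.ch x x)) _ * _ * _) ≤ _
      linarith
    have i1 : Integrable (fun x => C * (tv M H φ (X (j + 1)) x * Real.exp (-w (j + 1) x) -
        tv M H φ (X (j + 1)) x * Real.exp (-w j x))) (M.mu H) :=
      ((ip _ _).sub (ip _ _)).const_mul C
    rw [integral_sub (it _ _) i1, integral_const_mul, integral_sub (ip _ _) (ip _ _)] at h3
    simp only [e2] at h1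
    change _ ≤ _ + C * (∫ x, _ ∂_ - ∫ x, _ ∂_)
    change ∫ x, M.nrC _ (wd M H _ (X (j + 1))) x ∂_ ≤ _ at h2
    linarith
  have kl : Tendsto (fun j : ℕ => Real.exp (w 0 x0) *
      ((1 / 2) ^ (j + 1) + C * (A (j + 1) (j + 1) - A j (j + 1)))) atTop (𝓝 0) := by
    have := ((((tendsto_add_atTop_iff_nat 1).2 dl).add (bl.const_mul C))).const_mul
      (Real.exp (w 0 x0))
    simpa only [mul_zero, add_zero] using this
  have n1 : ∀ j, 0 ≤ ∫ x, tv M θ φ (X j) x * Real.exp (-w j x) ∂M.mu H := fun j =>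
    integral_nonneg fun x => mul_nonneg (t0 j x) (Real.exp_pos _).le
  have n2 : ∀ j, 0 ≤ ∫ x, qv M φ (X j) x * Real.exp (-w j x) ∂M.mu H := fun j =>
    integral_nonneg fun x => mul_nonneg (q0 j x) (Real.exp_pos _).le
  refine ⟨s, Real.exp (w 0 x0) * (tv M H φ (X 0) y * C + 1), hs, fun j => ?_, ?_, ?_, ?_⟩
  · exact (up hm (pc j) (p0 j) (wc j) (wm j)).trans
      (mul_le_mul_of_nonneg_left (bd j) (Real.exp_pos _).le)
  · refine (tendsto_add_atTop_iff_nat 1).1 (squeeze_zero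
      (fun j => integral_nonneg (q0 (j + 1))) (fun j => ?_) kl)
    exact (up hm (qc _) (q0 _) (wc (j + 1)) (wm _)).trans
      (mul_le_mul_of_nonneg_left (by linarith [key j, n1 (j + 1)]) (Real.exp_pos _).le)
  · refine (tendsto_add_atTop_iff_nat 1).1 (squeeze_zero
      (fun j => integral_nonneg (t0 (j + 1))) (fun j => ?_) kl)
    exact (up hm (tc _) (t0 _) (wc (j + 1)) (wm _)).trans
      (mul_le_mul_of_nonneg_left (by linarith [key j, n2 (j + 1)]) (Real.exp_pos _).le)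
  · have kd : Tendsto (fun j : ℕ => Real.exp (w 0 x0) * (1 / 2) ^ j) atTop (𝓝 0) := by
      simpa only [mul_zero] using dl.const_mul (Real.exp (w 0 x0))
    refine squeeze_zero (fun j => integral_nonneg (Mf.nrC_nonneg _ _)) (fun j => ?_) kd
    have h2 := s2 j
    simp only [e3] at h2
    exact (up hm (hφ.nr_sm (hD n M H L _ _ hm (wt j) (x1 j)).1).continuous (Mf.nrC_nonneg _ _)
      (wc j) (wm j)).trans (mul_le_mul_of_nonneg_left h2 (Real.exp_pos _).le)

end Pool.Agent.Lib.EXH
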