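import Pool.Agent.Lib.EXH.Blue

/-! Project ex41, part HY: the closed range for a Kähler metric. -/

open scoped Classical Topology ContDiff ComplexOrder Matrix ENNReal
open Set MeasureTheory Complex Metric Filter

noncomputable section

namespace Pool.Agent.Lib.EXH

open Pool.Agent.Lib.SV (E)
open Pool.Agent.Lib.HS32 Pool.Agent.Lib.KP
open Pool.Agent.Lib.VF72 (Lo pN)

/-- The range of `du` is closed. -/
def St_CRK : Prop := ∀ (n : ℕ) (M : Mf n) [M.Cpt] (H : M.Fam (Mat n)) (L : M.Co)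
  (l : Ultrafilter ℕ) (W : M.Fam (E n)) (s : ℕ → M.Fam ℂ), M.Kae H → VeC M L W →
  (∀ a, M.SecC L (s a)) →
  (∀ e ∈ M.C, ∀ k, Lo (pN l) e.target fun a z => W e z k - du M H (s a) e z k) →
  ∃ t, M.SecC L t ∧ M.All fun e z => W e z = du M H t e z

end Pool.Agent.Lib.EXH
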